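import Pool.Agent.Work.MP_1ed552_co.Forest

set_option autoImplicit false

namespace Pool.Agent.MP1ed552

open Finset

variable {V : Type} [DecidableEq V] {G F : SimpleGraph V} {W : Finset V}

/-- `h0, h1` halve the lists `L` on `W`, compatibly with `F`. -/
def Halves (F : SimpleGraph V) (W : Finset V) (m : ℕ) (L h0 h1 : V → Finset ℕ) : Prop :=
  (∀ v ∈ W, h0 v ∪ h1 v = L v ∧ Disjoint (h0 v) (h1 v) ∧ (h0 v).card = m ∧ (h1 v).card = m) ∧
  ∀ a ∈ W, ∀ b ∈ W, F.Adj a b → Disjoint (h0 a) (h0 b) ∧ Disjoint (h1 a) (h1 b)

lemma halving (m n : ℕ) : ∀ (F : SimpleGraph V) (W : Finset V) (L : V → Finset ℕ), W.card = n →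
    Forest F W → (∀ v ∈ W, (L v).card = 2 * m) → ∃ h0 h1 : V → Finset ℕ, Halves F W m L h0 h1 := by
  induction n with
  | zero =>
    intro F W L hW _ _
    rw [card_eq_zero] at hW
    subst hW
    exact ⟨fun _ => ∅, fun _ => ∅, by simp [Halves]⟩
  | succ n ih =>
    intro F W L hW hF hL
    have hne : W.Nonempty := by rw [← card_pos]; omega
    obtain ⟨a, ha, hda⟩ := hF W (Subset.refl _) hne
    have hcard : (W.erase a).card = n := by rw [card_erase_of_mem ha]; omega
    obtain ⟨h0, h1, hh, hadj⟩ := ih F (W.erase a) L hcard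
      (fun S hS hne => hF S (hS.trans (erase_subset _ _)) hne) (fun v hv => hL v (mem_of_mem_erase hv))
    -- choose the half at `a`
    obtain ⟨X, hXL, hXc, hX⟩ : ∃ X ⊆ L a, X.card = m ∧ ∀ b ∈ nb F W a,
        Disjoint X (h0 b) ∧ Disjoint (L a \ X) (h1 b) := by
      rcases Nat.lt_or_ge (nb F W a).card 1 with h | h
      · have hemp : nb F W a = ∅ := card_eq_zero.1 (by omega)
        obtain ⟨X, h1, h2⟩ := exists_subset_card_eq (s := L a) (n := m) (by rw [hL a ha]; omega)
        refine ⟨X, h1, h2, ?_⟩
        rw [hemp]; simp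
      · obtain ⟨b, hb⟩ := card_eq_one.1 (le_antisymm hda h)
        have hbn : b ∈ nb F W a := by rw [hb]; simp
        rw [mem_nb] at hbn
        have hbW : b ∈ W.erase a := mem_erase.2 ⟨hbn.2.ne', hbn.1⟩
        obtain ⟨g1, g2, g3, g4⟩ := hh b hbW
        obtain ⟨X, hX1, hX2, hX3⟩ := exists_subsuperset_card_eq (s := L a ∩ h1 b)
          (t := L a \ h0 b) (n := m)
          (by
            intro z hz
            rw [mem_inter] at hz
            rw [mem_sdiff]
            exact ⟨hz.1, fun h => (disjoint_left.1 g2) h hz.2⟩)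
          (by
            calc (L a ∩ h1 b).card ≤ (h1 b).card := card_le_card inter_subset_right
              _ = m := g4)
          (by
            have h3 := card_sdiff_add_card_inter (L a) (h0 b)
            have h4 : (L a ∩ h0 b).card ≤ m := by
              calc (L a ∩ h0 b).card ≤ (h0 b).card := card_le_card inter_subset_right
                _ = m := g3
            have h5 := hL a ha
            omega)
        refine ⟨X, hX2.trans sdiff_subset, hX3, ?_⟩
        intro b' hb'
        rw [hb, mem_singleton] at hb'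
        subst hb'
        constructor
        · rw [disjoint_left]
          intro z hz hz'
          have := hX2 hz
          rw [mem_sdiff] at this
          exact this.2 hz'
        · rw [disjoint_left]
          intro z hz hz'
          rw [mem_sdiff] at hz
          exact hz.2 (hX1 (mem_inter.2 ⟨hz.1, hz'⟩))
    refine ⟨Function.update h0 a X, Function.update h1 a (L a \ X), ?_, ?_⟩
    · intro v hv
      by_cases hva : v = a
      · subst hva
        rw [Function.update_self, Function.update_self]
        refine ⟨?_, ?_, hXc, ?_⟩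
        · rw [union_sdiff_of_subset hXL]
        · exact disjoint_sdiff
        · rw [card_sdiff_of_subset hXL, hXc, hL v hv]; omega
      · rw [Function.update_of_ne hva, Function.update_of_ne hva]
        exact hh v (mem_erase.2 ⟨hva, hv⟩)
    · intro u hu v hv huv
      by_cases hua : u = a
      · subst hua
        have hvu : v ≠ u := huv.ne'
        rw [Function.update_self, Function.update_self, Function.update_of_ne hvu,
          Function.update_of_ne hvu]
        exact hX v (mem_nb.2 ⟨hv, huv⟩)
      · by_cases hva : v = a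
        · subst hva
          rw [Function.update_self, Function.update_self, Function.update_of_ne hua,
            Function.update_of_ne hua]
          obtain ⟨k1, k2⟩ := hX u (mem_nb.2 ⟨hu, huv.symm⟩)
          exact ⟨k1.symm, k2.symm⟩
        · rw [Function.update_of_ne hua, Function.update_of_ne hua, Function.update_of_ne hva,
            Function.update_of_ne hva]
          exact hadj u (mem_erase.2 ⟨hua, hu⟩) v (mem_erase.2 ⟨hva, hv⟩) huv

/-- A graph whose edges split into two forests has four disjoint colourings from any 4-lists. -/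
theorem packing [Fintype V] (hT : Two G (univ : Finset V)) (L : V → Finset ℕ)
    (hL : ∀ v, (L v).card = 4) :
    ∃ c : Fin 4 → V → ℕ, (∀ i v, c i v ∈ L v) ∧ (∀ i u v, G.Adj u v → c i u ≠ c i v) ∧
      ∀ i j v, i ≠ j → c i v ≠ c j v := by
  obtain ⟨F1, F2, hF1, hF2, hcov⟩ := hT
  obtain ⟨h0, h1, hh, hadj⟩ := halving 2 _ F1 univ L rfl hF1 (fun v _ => hL v)
  obtain ⟨g00, g01, gg0, gadj0⟩ := halving 1 _ F2 univ h0 rfl hF2
    (fun v hv => (hh v hv).2.2.1)
  obtain ⟨g10, g11, gg1, gadj1⟩ := halving 1 _ F2 univ h1 rfl hF2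
    (fun v hv => (hh v hv).2.2.2)
  have e00 : ∀ v, ∃ x, g00 v = {x} := fun v => card_eq_one.1 (gg0 v (mem_univ _)).2.2.1
  have e01 : ∀ v, ∃ x, g01 v = {x} := fun v => card_eq_one.1 (gg0 v (mem_univ _)).2.2.2
  have e10 : ∀ v, ∃ x, g10 v = {x} := fun v => card_eq_one.1 (gg1 v (mem_univ _)).2.2.1
  have e11 : ∀ v, ∃ x, g11 v = {x} := fun v => card_eq_one.1 (gg1 v (mem_univ _)).2.2.2
  choose c00 hc00 using e00
  choose c01 hc01 using e01
  choose c10 hc10 using e10
  choose c11 hc11 using e11
  have m00 : ∀ v, c00 v ∈ h0 v := by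
    intro v; rw [← (gg0 v (mem_univ _)).1, hc00]; simp
  have m01 : ∀ v, c01 v ∈ h0 v := by
    intro v; rw [← (gg0 v (mem_univ _)).1, hc01]; simp
  have m10 : ∀ v, c10 v ∈ h1 v := by
    intro v; rw [← (gg1 v (mem_univ _)).1, hc10]; simp
  have m11 : ∀ v, c11 v ∈ h1 v := by
    intro v; rw [← (gg1 v (mem_univ _)).1, hc11]; simp
  have d0 : ∀ v, c00 v ≠ c01 v := by
    intro v h
    have := (gg0 v (mem_univ _)).2.1
    rw [hc00, hc01, disjoint_singleton] at this
    exact this h
  have d1 : ∀ v, c10 v ≠ c11 v := by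
    intro v h
    have := (gg1 v (mem_univ _)).2.1
    rw [hc10, hc11, disjoint_singleton] at this
    exact this h
  have d01 : ∀ v x y, x ∈ h0 v → y ∈ h1 v → x ≠ y := by
    rintro v x y hx hy rfl
    exact (disjoint_left.1 (hh v (mem_univ _)).2.1) hx hy
  have s0 : ∀ v x, x ∈ h0 v → x ∈ L v := by
    intro v x hx; rw [← (hh v (mem_univ _)).1]; exact mem_union_left _ hx
  have s1 : ∀ v x, x ∈ h1 v → x ∈ L v := by
    intro v x hx; rw [← (hh v (mem_univ _)).1]; exact mem_union_right _ hx
  refine ⟨![c00, c01, c10, c11], ?_, ?_, ?_⟩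
  · intro i v
    fin_cases i
    · exact s0 v _ (m00 v)
    · exact s0 v _ (m01 v)
    · exact s1 v _ (m10 v)
    · exact s1 v _ (m11 v)
  · intro i u v huv
    rcases hcov u (mem_univ _) v (mem_univ _) huv with h | h
    · obtain ⟨k0, k1⟩ := hadj u (mem_univ _) v (mem_univ _) h
      rw [disjoint_left] at k0 k1
      fin_cases i
      · intro he; exact k0 (m00 u) (by show c00 u ∈ h0 v; rw [show c00 u = c00 v from he]; exact m00 v)
      · intro he; exact k0 (m01 u) (by show c01 u ∈ h0 v; rw [show c01 u = c01 v from he]; exact m01 v)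
      · intro he; exact k1 (m10 u) (by show c10 u ∈ h1 v; rw [show c10 u = c10 v from he]; exact m10 v)
      · intro he; exact k1 (m11 u) (by show c11 u ∈ h1 v; rw [show c11 u = c11 v from he]; exact m11 v)
    · obtain ⟨k00, k01⟩ := gadj0 u (mem_univ _) v (mem_univ _) h
      obtain ⟨k10, k11⟩ := gadj1 u (mem_univ _) v (mem_univ _) h
      rw [hc00, hc00, disjoint_singleton] at k00
      rw [hc01, hc01, disjoint_singleton] at k01
      rw [hc10, hc10, disjoint_singleton] at k10
      rw [hc11, hc11, disjoint_singleton] at k11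
      fin_cases i
      · exact k00
      · exact k01
      · exact k10
      · exact k11
  · have key : ∀ v, c00 v ≠ c01 v ∧ c00 v ≠ c10 v ∧ c00 v ≠ c11 v ∧ c01 v ≠ c10 v ∧
        c01 v ≠ c11 v ∧ c10 v ≠ c11 v := fun v =>
      ⟨d0 v, d01 v _ _ (m00 v) (m10 v), d01 v _ _ (m00 v) (m11 v), d01 v _ _ (m01 v) (m10 v),
        d01 v _ _ (m01 v) (m11 v), d1 v⟩
    intro i j v hij
    obtain ⟨q1, q2, q3, q4, q5, q6⟩ := key v
    fin_cases i <;> fin_cases j <;>
      first
        | exact absurd rfl hij
        | exact q1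
        | exact q2
        | exact q3
        | exact q4
        | exact q5
        | exact q6
        | exact q1.symm
        | exact q2.symm
        | exact q3.symm
        | exact q4.symm
        | exact q5.symm
        | exact q6.symm

/-- A triangle-free graph without `K_5` and `K_{3,3}` minors splits into two forests. -/
theorem two_of_good [Fintype V] (h3 : G.CliqueFree 3) (hg : Good G (Set.univ : Set V)) :
    Two G (univ : Finset V) := by
  refine two_forests _ G univ rfl ?_
  intro S _ hc
  have hT : T G S = 0 := by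
    unfold T
    rw [sum_eq_zero_iff]
    intro a ha
    unfold E
    rw [sum_eq_zero_iff]
    intro b hb
    rw [card_eq_zero, eq_empty_iff_forall_notMem]
    intro c hcc
    rw [mem_nb] at hb
    rw [mem_nb, mem_nb] at hcc
    exact h3 {a, b, c} (SimpleGraph.is3Clique_triple_iff.2 ⟨hb.2, hcc.1.2, hcc.2⟩)
  rcases Nat.lt_or_ge S.card 4 with h | h
  · -- small sets
    have hE : E G S ≤ S.card * (S.card - 1) := by
      unfold E
      calc ∑ a ∈ S, (nb G S a).card ≤ ∑ a ∈ S, (S.card - 1) := by
            refine sum_le_sum (fun a ha => ?_)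
            rw [← card_erase_of_mem ha]
            refine card_le_card ?_
            intro z hz
            rw [mem_nb] at hz
            exact mem_erase.2 ⟨hz.2.ne', hz.1⟩
        _ = _ := by simp
    have : S.card = 2 ∨ S.card = 3 := by omega
    rcases this with h' | h' <;> rw [h'] at hE ⊢ <;> omega
  · have h1 := bound _ G S (le_refl _) h (hg.mono_set (Set.subset_univ _))
    unfold Bd at h1
    omega

end Pool.Agent.MP1ed552
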