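import Mathlib

set_option autoImplicit false

namespace Pool.Agent.MP1ed552

open Finset

variable {V : Type} [DecidableEq V]

open Classical in
/-- Neighbours of `a` inside `W`. -/
noncomputable def nb (G : SimpleGraph V) (W : Finset V) (a : V) : Finset V :=
  W.filter (fun b => G.Adj a b)

/-- Number of ordered adjacent pairs inside `W`. -/
noncomputable def E (G : SimpleGraph V) (W : Finset V) : ℕ := ∑ a ∈ W, (nb G W a).card

/-- Number of ordered triangles inside `W`. -/
noncomputable def T (G : SimpleGraph V) (W : Finset V) : ℕ := ∑ a ∈ W, E G (nb G W a)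

variable {G : SimpleGraph V} {W S : Finset V} {a b x y : V}

lemma mem_nb : b ∈ nb G W a ↔ b ∈ W ∧ G.Adj a b := by simp [nb]

lemma nb_subset : nb G W a ⊆ W := by intro z hz; exact (mem_nb.1 hz).1

lemma nb_mono (h : S ⊆ W) : nb G S a ⊆ nb G W a := by
  intro z hz; rw [mem_nb] at *; exact ⟨h hz.1, hz.2⟩

lemma nb_insert_self : nb G (insert y S) y = nb G S y := by
  ext z; simp only [mem_nb, mem_insert]
  constructor
  · rintro ⟨rfl | h, h2⟩
    · exact absurd h2 (G.loopless.irrefl _)
    · exact ⟨h, h2⟩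
  · rintro ⟨h, h2⟩; exact ⟨Or.inr h, h2⟩

lemma nb_insert_adj (h : G.Adj a y) : nb G (insert y S) a = insert y (nb G S a) := by
  ext z; simp only [mem_nb, mem_insert]
  constructor
  · rintro ⟨rfl | h, h2⟩
    · exact Or.inl rfl
    · exact Or.inr ⟨h, h2⟩
  · rintro (rfl | ⟨h, h2⟩)
    · exact ⟨Or.inl rfl, h⟩
    · exact ⟨Or.inr h, h2⟩

lemma nb_insert_nadj (h : ¬ G.Adj a y) : nb G (insert y S) a = nb G S a := by
  ext z; simp only [mem_nb, mem_insert]
  constructor
  · rintro ⟨rfl | h, h2⟩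
    · exact absurd h2 h
    · exact ⟨h, h2⟩
  · rintro ⟨h, h2⟩; exact ⟨Or.inr h, h2⟩

lemma not_mem_nb_self : y ∉ nb G W y := by
  rw [mem_nb]; intro h; exact G.loopless.irrefl _ h.2

lemma E_insert (hy : y ∉ S) : E G (insert y S) = E G S + 2 * (nb G S y).card := by
  classical
  unfold E
  rw [sum_insert hy, nb_insert_self]
  have h1 : ∀ a ∈ S, (nb G (insert y S) a).card = (nb G S a).card + (if G.Adj y a then 1 else 0) := by
    intro a ha
    by_cases h : G.Adj y a
    · rw [nb_insert_adj h.symm, card_insert_of_notMem, if_pos h]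
      intro h'; exact hy (nb_subset h')
    · rw [nb_insert_nadj (fun h' => h h'.symm), if_neg h]; rfl
  rw [sum_congr rfl h1, sum_add_distrib]
  have h2 : (∑ a ∈ S, if G.Adj y a then 1 else 0) = (nb G S y).card := by
    rw [← card_filter]; rfl
  rw [h2]; ring

lemma nb_nb : nb G (nb G S a) b = nb G (nb G S b) a := by
  ext z; simp only [mem_nb]; tauto

lemma T_insert (hy : y ∉ S) : T G (insert y S) = T G S + 3 * E G (nb G S y) := by
  classical
  unfold T
  rw [sum_insert hy, nb_insert_self]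
  have h1 : ∀ a ∈ S, E G (nb G (insert y S) a) =
      E G (nb G S a) + (if G.Adj y a then 2 * (nb G (nb G S y) a).card else 0) := by
    intro a ha
    by_cases h : G.Adj y a
    · rw [nb_insert_adj h.symm, E_insert, if_pos h, nb_nb]
      intro h'; exact hy (nb_subset h')
    · rw [nb_insert_nadj (fun h' => h h'.symm), if_neg h]; rfl
  rw [sum_congr rfl h1, sum_add_distrib]
  have h2 : (∑ a ∈ S, if G.Adj y a then 2 * (nb G (nb G S y) a).card else 0)
      = 2 * E G (nb G S y) := by
    rw [← sum_filter]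
    have : S.filter (fun a => G.Adj y a) = nb G S y := by ext z; simp [mem_nb]
    rw [this, ← mul_sum]; rfl
  rw [h2]; ring

lemma E_erase (hy : y ∈ W) : E G W = E G (W.erase y) + 2 * (nb G W y).card := by
  have h := E_insert (G := G) (S := W.erase y) (y := y) (notMem_erase y W)
  rw [insert_erase hy] at h
  rw [h]
  congr 2
  have : nb G (insert y (W.erase y)) y = nb G (W.erase y) y := nb_insert_self
  rw [insert_erase hy] at this
  rw [this]

lemma T_erase (hy : y ∈ W) : T G W = T G (W.erase y) + 3 * E G (nb G W y) := by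
  have h := T_insert (G := G) (S := W.erase y) (y := y) (notMem_erase y W)
  rw [insert_erase hy] at h
  rw [h]
  congr 2
  have : nb G (insert y (W.erase y)) y = nb G (W.erase y) y := nb_insert_self
  rw [insert_erase hy] at this
  rw [this]

lemma E_mono (h : S ⊆ W) : E G S ≤ E G W := by
  unfold E
  calc ∑ a ∈ S, (nb G S a).card ≤ ∑ a ∈ S, (nb G W a).card :=
        sum_le_sum (fun a _ => card_le_card (nb_mono h))
    _ ≤ ∑ a ∈ W, (nb G W a).card := sum_le_sum_of_subset h

lemma T_mono (h : S ⊆ W) : T G S ≤ T G W := by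
  unfold T
  calc ∑ a ∈ S, E G (nb G S a) ≤ ∑ a ∈ S, E G (nb G W a) :=
        sum_le_sum (fun a _ => E_mono (nb_mono h))
    _ ≤ ∑ a ∈ W, E G (nb G W a) := sum_le_sum_of_subset h

lemma E_empty : E G ∅ = 0 := by simp [E]

lemma E_even : Even (E G W) := by
  induction W using Finset.induction_on with
  | empty => simp [E_empty]
  | insert a s ha ih =>
    rw [E_insert ha]; exact ih.add (even_two_mul _)

/-- congruence: `E` and `T` only depend on adjacency inside `W`. -/
lemma nb_congr {G' : SimpleGraph V} (h : ∀ b ∈ W, (G.Adj a b ↔ G'.Adj a b)) :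
    nb G W a = nb G' W a := by
  ext z; simp only [mem_nb]
  constructor
  · rintro ⟨h1, h2⟩; exact ⟨h1, (h z h1).1 h2⟩
  · rintro ⟨h1, h2⟩; exact ⟨h1, (h z h1).2 h2⟩

lemma E_congr {G' : SimpleGraph V} (h : ∀ a ∈ W, ∀ b ∈ W, (G.Adj a b ↔ G'.Adj a b)) :
    E G W = E G' W := by
  unfold E
  exact sum_congr rfl (fun a ha => by rw [nb_congr (h a ha)])

lemma T_congr {G' : SimpleGraph V} (h : ∀ a ∈ W, ∀ b ∈ W, (G.Adj a b ↔ G'.Adj a b)) :
    T G W = T G' W := by
  unfold T
  refine sum_congr rfl (fun a ha => ?_)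
  rw [nb_congr (h a ha)]
  exact E_congr (fun a ha b hb => h a (nb_subset ha) b (nb_subset hb))

/-- `E` as a number of pairs. -/
lemma E_eq_card [DecidableRel G.Adj] : E G W = ((W ×ˢ W).filter (fun p => G.Adj p.1 p.2)).card := by
  rw [card_filter, sum_product]
  unfold E
  refine sum_congr rfl (fun a _ => ?_)
  rw [← card_filter]
  congr 1
  ext z; simp [mem_nb]

lemma E_super : E G S + E G W ≤ E G (S ∪ W) + E G (S ∩ W) := by
  classical
  rw [E_eq_card, E_eq_card, E_eq_card, E_eq_card, ← card_union_add_card_inter]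
  refine Nat.add_le_add (card_le_card ?_) (card_le_card ?_)
  · intro p; simp only [mem_union, mem_filter, mem_product]; tauto
  · intro p; simp only [mem_inter, mem_filter, mem_product]; tauto

/-- Separations. -/
lemma E_sep (h : ∀ a ∈ S, a ∉ W → ∀ b ∈ W, b ∉ S → ¬ G.Adj a b) :
    E G S + E G W = E G (S ∪ W) + E G (S ∩ W) := by
  classical
  rw [E_eq_card, E_eq_card, E_eq_card, E_eq_card, ← card_union_add_card_inter]
  congr 2
  · ext p
    simp only [mem_union, mem_filter, mem_product]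
    constructor
    · tauto
    · rintro ⟨⟨h1, h2⟩, h3⟩
      have k1 : p.1 ∈ S → p.1 ∉ W → p.2 ∈ W → p.2 ∈ S := fun a1 a2 a3 => by
        by_contra a4; exact h _ a1 a2 _ a3 a4 h3
      have k2 : p.2 ∈ S → p.2 ∉ W → p.1 ∈ W → p.1 ∈ S := fun a1 a2 a3 => by
        by_contra a4; exact h _ a1 a2 _ a3 a4 h3.symm
      tauto
  · ext p
    simp only [mem_inter, mem_filter, mem_product]; tauto

lemma nb_union : nb G (S ∪ W) a = nb G S a ∪ nb G W a := by
  ext z; simp only [mem_nb, mem_union]; tauto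

lemma nb_inter : nb G (S ∩ W) a = nb G S a ∩ nb G W a := by
  ext z; simp only [mem_nb, mem_inter]; tauto

lemma T_sep (h : ∀ a ∈ S, a ∉ W → ∀ b ∈ W, b ∉ S → ¬ G.Adj a b) :
    T G S + T G W = T G (S ∪ W) + T G (S ∩ W) := by
  unfold T
  have hS : S = (S \ W) ∪ (S ∩ W) := by ext z; simp only [mem_union, mem_sdiff, mem_inter]; tauto
  have hW : W = (W \ S) ∪ (S ∩ W) := by ext z; simp only [mem_union, mem_sdiff, mem_inter]; tauto
  have hU : S ∪ W = ((S \ W) ∪ (W \ S)) ∪ (S ∩ W) := by
    ext z; simp only [mem_union, mem_sdiff, mem_inter]; tauto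
  have d1 : Disjoint (S \ W) (S ∩ W) := by
    rw [disjoint_left]; intro z; simp only [mem_sdiff, mem_inter]; tauto
  have d2 : Disjoint (W \ S) (S ∩ W) := by
    rw [disjoint_left]; intro z; simp only [mem_sdiff, mem_inter]; tauto
  have d3 : Disjoint ((S \ W) ∪ (W \ S)) (S ∩ W) := by
    rw [disjoint_left]; intro z; simp only [mem_sdiff, mem_inter, mem_union]; tauto
  have d4 : Disjoint (S \ W) (W \ S) := by
    rw [disjoint_left]; intro z; simp only [mem_sdiff]; tauto
  have e1 : ∑ a ∈ S, E G (nb G S a) = ∑ a ∈ S \ W, E G (nb G S a) + ∑ a ∈ S ∩ W, E G (nb G S a) := by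
    rw [← sum_union d1, ← hS]
  have e2 : ∑ a ∈ W, E G (nb G W a) = ∑ a ∈ W \ S, E G (nb G W a) + ∑ a ∈ S ∩ W, E G (nb G W a) := by
    rw [← sum_union d2, ← hW]
  have e3 : ∑ a ∈ S ∪ W, E G (nb G (S ∪ W) a) = (∑ a ∈ S \ W, E G (nb G (S ∪ W) a) +
      ∑ a ∈ W \ S, E G (nb G (S ∪ W) a)) + ∑ a ∈ S ∩ W, E G (nb G (S ∪ W) a) := by
    rw [← sum_union d4, ← sum_union d3, ← hU]
  have f1 : ∀ a ∈ S \ W, nb G (S ∪ W) a = nb G S a := by
    intro a ha
    rw [mem_sdiff] at ha
    ext z; simp only [mem_nb, mem_union]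
    constructor
    · rintro ⟨hz, hadj⟩
      refine ⟨?_, hadj⟩
      by_contra hzS
      have hzW : z ∈ W := by tauto
      exact h a ha.1 ha.2 z hzW hzS hadj
    · rintro ⟨hz, hadj⟩; exact ⟨Or.inl hz, hadj⟩
  have f2 : ∀ a ∈ W \ S, nb G (S ∪ W) a = nb G W a := by
    intro a ha
    rw [mem_sdiff] at ha
    ext z; simp only [mem_nb, mem_union]
    constructor
    · rintro ⟨hz, hadj⟩
      refine ⟨?_, hadj⟩
      by_contra hzW
      have hzS : z ∈ S := by tauto
      exact h z hzS hzW a ha.1 ha.2 hadj.symm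
    · rintro ⟨hz, hadj⟩; exact ⟨Or.inr hz, hadj⟩
  have f3 : ∀ a ∈ S ∩ W, E G (nb G S a) + E G (nb G W a) =
      E G (nb G (S ∪ W) a) + E G (nb G (S ∩ W) a) := by
    intro a ha
    rw [nb_union, nb_inter]
    apply E_sep
    intro u hu hu' v hv hv'
    rw [mem_nb] at hu hv
    have : u ∉ W := fun h' => hu' (mem_nb.2 ⟨h', hu.2⟩)
    have : v ∉ S := fun h' => hv' (mem_nb.2 ⟨h', hv.2⟩)
    exact h u hu.1 (by assumption) v hv.1 (by assumption)
  rw [e1, e2, e3, sum_congr rfl (fun a ha => by rw [f1 a ha] : ∀ a ∈ S \ W, E G (nb G (S ∪ W) a) = E G (nb G S a)),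
    sum_congr rfl (fun a ha => by rw [f2 a ha] : ∀ a ∈ W \ S, E G (nb G (S ∪ W) a) = E G (nb G W a))]
  have f4 : ∑ a ∈ S ∩ W, E G (nb G S a) + ∑ a ∈ S ∩ W, E G (nb G W a) =
      ∑ a ∈ S ∩ W, E G (nb G (S ∪ W) a) + ∑ a ∈ S ∩ W, E G (nb G (S ∩ W) a) := by
    rw [← sum_add_distrib, ← sum_add_distrib]
    exact sum_congr rfl f3
  omega

/-- Union bound for `E` with the cross edges. -/
lemma E_union_le : E G (S ∪ W) ≤ E G S + E G W + 2 * ∑ u ∈ W \ S, (nb G (S \ W) u).card := by
  classical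
  have key : E G (S ∪ W) ≤ E G S + E G W +
      (((W \ S) ×ˢ (S \ W)).filter (fun p => G.Adj p.1 p.2)).card +
      (((S \ W) ×ˢ (W \ S)).filter (fun p => G.Adj p.1 p.2)).card := by
    rw [E_eq_card, E_eq_card, E_eq_card]
    calc _ ≤ ((((S ×ˢ S).filter (fun p => G.Adj p.1 p.2)) ∪
              ((W ×ˢ W).filter (fun p => G.Adj p.1 p.2))) ∪
              (((W \ S) ×ˢ (S \ W)).filter (fun p => G.Adj p.1 p.2)) ∪
              (((S \ W) ×ˢ (W \ S)).filter (fun p => G.Adj p.1 p.2))).card := by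
            refine card_le_card ?_
            intro p
            simp only [mem_union, mem_filter, mem_product, mem_sdiff]
            tauto
      _ ≤ _ := by
            refine (card_union_le _ _).trans ?_
            refine Nat.add_le_add_right ?_ _
            refine (card_union_le _ _).trans ?_
            refine Nat.add_le_add_right ?_ _
            exact card_union_le _ _
  have c1 : (((W \ S) ×ˢ (S \ W)).filter (fun p => G.Adj p.1 p.2)).card =
      ∑ a ∈ W \ S, (nb G (S \ W) a).card := by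
    rw [card_filter, sum_product]
    refine sum_congr rfl (fun a _ => ?_)
    rw [← card_filter]; rfl
  have c2 : (((S \ W) ×ˢ (W \ S)).filter (fun p => G.Adj p.1 p.2)).card =
      (((W \ S) ×ˢ (S \ W)).filter (fun p => G.Adj p.1 p.2)).card := by
    refine card_bij (fun p _ => (p.2, p.1)) ?_ ?_ ?_
    · intro p hp
      simp only [mem_filter, mem_product] at hp ⊢
      exact ⟨⟨hp.1.2, hp.1.1⟩, hp.2.symm⟩
    · intro p _ q _ hpq
      simp only [Prod.mk.injEq] at hpq
      exact Prod.ext hpq.2 hpq.1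
    · intro q hq
      simp only [mem_filter, mem_product] at hq
      exact ⟨(q.2, q.1), by simp only [mem_filter, mem_product]; exact ⟨⟨hq.1.2, hq.1.1⟩, hq.2.symm⟩, rfl⟩
  omega

end Pool.Agent.MP1ed552
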