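import Pool.Agent.Work.MP_1ed552_co.Sparse4

set_option autoImplicit false

namespace Pool.Agent.MP1ed552

open Finset

variable {V : Type} [DecidableEq V] {G F : SimpleGraph V} {W : Finset V}

/-- `F` restricted to `W` is a forest: every nonempty subset has a vertex of degree at most one. -/
def Forest (F : SimpleGraph V) (W : Finset V) : Prop :=
  ∀ S ⊆ W, S.Nonempty → ∃ a ∈ S, (nb F S a).card ≤ 1

/-- `(2,3)`-sparsity. -/
def Laman (G : SimpleGraph V) (W : Finset V) : Prop :=
  ∀ S ⊆ W, 2 ≤ S.card → E G S + 6 ≤ 4 * S.card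

/-- add a pendant vertex `v` at `p` -/
def addPendant (F : SimpleGraph V) (v p : V) (hvp : v ≠ p) : SimpleGraph V where
  Adj a b := (a ≠ v ∧ b ≠ v ∧ F.Adj a b) ∨ (a = v ∧ b = p) ∨ (a = p ∧ b = v)
  symm := ⟨by
    rintro a b (⟨h1, h2, h3⟩ | ⟨h1, h2⟩ | ⟨h1, h2⟩)
    · exact Or.inl ⟨h2, h1, h3.symm⟩
    · exact Or.inr (Or.inr ⟨h2, h1⟩)
    · exact Or.inr (Or.inl ⟨h2, h1⟩)⟩
  loopless := ⟨by
    rintro a (⟨h1, h2, h3⟩ | ⟨h1, h2⟩ | ⟨h1, h2⟩)
    · exact F.loopless.irrefl a h3
    · exact hvp (h1.symm.trans h2)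
    · exact hvp (h2.symm.trans h1)⟩

lemma addPendant_adj {v p : V} {hvp : v ≠ p} {a b : V} : (addPendant F v p hvp).Adj a b ↔
    (a ≠ v ∧ b ≠ v ∧ F.Adj a b) ∨ (a = v ∧ b = p) ∨ (a = p ∧ b = v) := Iff.rfl

lemma forest_addPendant {v p : V} (hvp : v ≠ p) (hF : Forest F (W.erase v)) :
    Forest (addPendant F v p hvp) W := by
  intro S hS hne
  by_cases hv : v ∈ S
  · refine ⟨v, hv, ?_⟩
    have : nb (addPendant F v p hvp) S v ⊆ {p} := by
      intro z hz
      rw [mem_nb, addPendant_adj] at hz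
      rw [mem_singleton]
      rcases hz.2 with ⟨h1, -, -⟩ | ⟨-, h⟩ | ⟨h, -⟩
      · exact absurd rfl h1
      · exact h
      · exact absurd h hvp
    exact (card_le_card this).trans (by simp)
  · obtain ⟨a, ha, hc⟩ := hF S (fun z hz => mem_erase.2 ⟨fun h => hv (h ▸ hz), hS hz⟩) hne
    refine ⟨a, ha, ?_⟩
    have : nb (addPendant F v p hvp) S a ⊆ nb F S a := by
      intro z hz
      rw [mem_nb, addPendant_adj] at hz
      rw [mem_nb]
      rcases hz with ⟨hzS, ⟨-, -, h⟩ | ⟨h, -⟩ | ⟨-, h⟩⟩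
      · exact ⟨hzS, h⟩
      · exact absurd (h ▸ ha) hv
      · exact absurd (h ▸ hzS) hv
    exact (card_le_card this).trans hc

/-- subdivide the edge `p q` by `v` -/
def subdiv (F : SimpleGraph V) (v p q : V) (hvp : v ≠ p) (hvq : v ≠ q) : SimpleGraph V where
  Adj a b := (a ≠ v ∧ b ≠ v ∧ F.Adj a b ∧ ¬ ((a = p ∧ b = q) ∨ (a = q ∧ b = p))) ∨
    (a = v ∧ (b = p ∨ b = q)) ∨ (b = v ∧ (a = p ∨ a = q))
  symm := ⟨by
    rintro a b (⟨h1, h2, h3, h4⟩ | ⟨h1, h2⟩ | ⟨h1, h2⟩)
    · exact Or.inl ⟨h2, h1, h3.symm, by tauto⟩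
    · exact Or.inr (Or.inr ⟨h1, h2⟩)
    · exact Or.inr (Or.inl ⟨h1, h2⟩)⟩
  loopless := ⟨by
    rintro a (⟨h1, h2, h3, h4⟩ | ⟨h1, h2 | h2⟩ | ⟨h1, h2 | h2⟩)
    · exact F.loopless.irrefl a h3
    · exact hvp (h1.symm.trans h2)
    · exact hvq (h1.symm.trans h2)
    · exact hvp (h1.symm.trans h2)
    · exact hvq (h1.symm.trans h2)⟩

lemma subdiv_adj {v p q : V} {hvp : v ≠ p} {hvq : v ≠ q} {a b : V} :
    (subdiv F v p q hvp hvq).Adj a b ↔
    (a ≠ v ∧ b ≠ v ∧ F.Adj a b ∧ ¬ ((a = p ∧ b = q) ∨ (a = q ∧ b = p))) ∨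
    (a = v ∧ (b = p ∨ b = q)) ∨ (b = v ∧ (a = p ∨ a = q)) := Iff.rfl

lemma forest_subdiv {v p q : V} (hvp : v ≠ p) (hvq : v ≠ q) (hpq : F.Adj p q)
    (hF : Forest F (W.erase v)) : Forest (subdiv F v p q hvp hvq) W := by
  have hpq' : p ≠ q := hpq.ne
  intro S hS hne
  by_cases hv : v ∈ S
  · by_cases hp : p ∈ S
    · by_cases hq : q ∈ S
      · have hS' : S.erase v ⊆ W.erase v := erase_subset_erase v hS
        obtain ⟨a, ha, hc⟩ := hF (S.erase v) hS' ⟨p, mem_erase.2 ⟨hvp.symm, hp⟩⟩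
        rw [mem_erase] at ha
        refine ⟨a, ha.2, le_trans ?_ hc⟩
        by_cases hap : a = p
        · subst hap
          have hq' : q ∈ nb F (S.erase v) a := by
            rw [mem_nb, mem_erase]; exact ⟨⟨hvq.symm, hq⟩, hpq⟩
          have : nb (subdiv F v a q hvp hvq) S a ⊆ insert v ((nb F (S.erase v) a).erase q) := by
            intro z hz
            rw [mem_nb, subdiv_adj] at hz
            rw [mem_insert, mem_erase, mem_nb, mem_erase]
            rcases hz with ⟨hzS, ⟨h1, h2, h3, h4⟩ | ⟨h, -⟩ | ⟨h, -⟩⟩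
            · right
              refine ⟨?_, ⟨h2, hzS⟩, h3⟩
              rintro rfl
              exact h4 (Or.inl ⟨rfl, rfl⟩)
            · exact absurd h ha.1
            · exact Or.inl h
          refine (card_le_card this).trans ((card_insert_le _ _).trans ?_)
          rw [card_erase_of_mem hq']
          have := card_pos.2 ⟨q, hq'⟩
          omega
        · by_cases haq : a = q
          · subst haq
            have hp' : p ∈ nb F (S.erase v) a := by
              rw [mem_nb, mem_erase]; exact ⟨⟨hvp.symm, hp⟩, hpq.symm⟩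
            have : nb (subdiv F v p a hvp hvq) S a ⊆ insert v ((nb F (S.erase v) a).erase p) := by
              intro z hz
              rw [mem_nb, subdiv_adj] at hz
              rw [mem_insert, mem_erase, mem_nb, mem_erase]
              rcases hz with ⟨hzS, ⟨h1, h2, h3, h4⟩ | ⟨h, -⟩ | ⟨h, -⟩⟩
              · right
                refine ⟨?_, ⟨h2, hzS⟩, h3⟩
                rintro rfl
                exact h4 (Or.inr ⟨rfl, rfl⟩)
              · exact absurd h ha.1
              · exact Or.inl h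
            refine (card_le_card this).trans ((card_insert_le _ _).trans ?_)
            rw [card_erase_of_mem hp']
            have := card_pos.2 ⟨p, hp'⟩
            omega
          · refine card_le_card ?_
            intro z hz
            rw [mem_nb, subdiv_adj] at hz
            rw [mem_nb, mem_erase]
            rcases hz with ⟨hzS, ⟨h1, h2, h3, h4⟩ | ⟨h, -⟩ | ⟨h, h' | h'⟩⟩
            · exact ⟨⟨h2, hzS⟩, h3⟩
            · exact absurd h ha.1
            · exact absurd h' hap
            · exact absurd h' haq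
      · refine ⟨v, hv, ?_⟩
        have : nb (subdiv F v p q hvp hvq) S v ⊆ {p} := by
          intro z hz
          rw [mem_nb, subdiv_adj] at hz
          rw [mem_singleton]
          rcases hz with ⟨hzS, ⟨h1, h2, h3, h4⟩ | ⟨h, h' | h'⟩ | ⟨h, h' | h'⟩⟩
          · exact absurd rfl h1
          · exact h'
          · exact absurd (h' ▸ hzS) hq
          · exact absurd h' hvp
          · exact absurd h' hvq
        exact (card_le_card this).trans (by simp)
    · refine ⟨v, hv, ?_⟩
      have : nb (subdiv F v p q hvp hvq) S v ⊆ {q} := by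
        intro z hz
        rw [mem_nb, subdiv_adj] at hz
        rw [mem_singleton]
        rcases hz with ⟨hzS, ⟨h1, h2, h3, h4⟩ | ⟨h, h' | h'⟩ | ⟨h, h' | h'⟩⟩
        · exact absurd rfl h1
        · exact absurd (h' ▸ hzS) hp
        · exact h'
        · exact absurd h' hvp
        · exact absurd h' hvq
      exact (card_le_card this).trans (by simp)
  · obtain ⟨a, ha, hc⟩ := hF S (fun z hz => mem_erase.2 ⟨fun h => hv (h ▸ hz), hS hz⟩) hne
    refine ⟨a, ha, ?_⟩
    have : nb (subdiv F v p q hvp hvq) S a ⊆ nb F S a := by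
      intro z hz
      rw [mem_nb, subdiv_adj] at hz
      rw [mem_nb]
      rcases hz with ⟨hzS, ⟨h1, h2, h3, h4⟩ | ⟨h, -⟩ | ⟨h, -⟩⟩
      · exact ⟨hzS, h3⟩
      · exact absurd (h ▸ ha) hv
      · exact absurd (h ▸ hzS) hv
    exact (card_le_card this).trans hc

lemma E_le_one {S : Finset V} (h : S.card ≤ 1) : E G S = 0 := by
  rcases Nat.lt_or_ge 0 S.card with h' | h'
  · obtain ⟨a, ha⟩ := card_eq_one.1 (le_antisymm h h')
    rw [ha, E_singleton]
  · rw [card_eq_zero.1 (show S.card = 0 by omega), E_empty]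

/-- three sets meeting in at most one point -/
lemma E_three {X Y Z : Finset V} (h1 : (X ∩ Y).card ≤ 1) (h2 : (X ∩ Z).card ≤ 1)
    (h3 : (Y ∩ Z).card ≤ 1) : E G X + E G Y + E G Z ≤ E G (X ∪ Y ∪ Z) := by
  classical
  have key : ∀ A B : Finset V, (A ∩ B).card ≤ 1 →
      Disjoint ((A ×ˢ A).filter (fun p => G.Adj p.1 p.2)) ((B ×ˢ B).filter (fun p => G.Adj p.1 p.2)) := by
    intro A B hAB
    rw [disjoint_left]
    intro p hp hp'
    simp only [mem_filter, mem_product] at hp hp'
    have h1 : p.1 ∈ A ∩ B := mem_inter.2 ⟨hp.1.1, hp'.1.1⟩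
    have h2 : p.2 ∈ A ∩ B := mem_inter.2 ⟨hp.1.2, hp'.1.2⟩
    have := card_le_one.1 hAB _ h1 _ h2
    exact hp.2.ne this
  rw [E_eq_card, E_eq_card, E_eq_card, E_eq_card, ← card_union_of_disjoint (key X Y h1),
    ← card_union_of_disjoint (by
      rw [disjoint_union_left]; exact ⟨key X Z h2, key Y Z h3⟩)]
  refine card_le_card ?_
  intro p
  simp only [mem_union, mem_filter, mem_product]
  tauto

/-- add an edge -/
def addEdge (G : SimpleGraph V) (p q : V) : SimpleGraph V where
  Adj a b := G.Adj a b ∨ (a ≠ b ∧ ((a = p ∧ b = q) ∨ (a = q ∧ b = p)))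
  symm := ⟨by
    rintro a b (h | ⟨h1, h2⟩)
    · exact Or.inl h.symm
    · exact Or.inr ⟨h1.symm, by tauto⟩⟩
  loopless := ⟨by
    rintro a (h | ⟨h1, h2⟩)
    · exact G.loopless.irrefl a h
    · exact h1 rfl⟩

lemma addEdge_adj {p q a b : V} : (addEdge G p q).Adj a b ↔
    G.Adj a b ∨ (a ≠ b ∧ ((a = p ∧ b = q) ∨ (a = q ∧ b = p))) := Iff.rfl

/-- `p q` is not blocked by a tight set. -/
def Free (G : SimpleGraph V) (W : Finset V) (p q : V) : Prop :=
  ∀ S ⊆ W, p ∈ S → q ∈ S → E G S + 6 < 4 * S.card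

lemma laman_addEdge {p q : V} (hL : Laman G W) (hp : p ∈ W) (hq : q ∈ W) (hpq : p ≠ q)
    (hfree : Free G W p q) : Laman (addEdge G p q) W ∧ ¬ G.Adj p q := by
  have hn : ¬ G.Adj p q := by
    intro h
    have h1 := hfree {p, q} (by
      intro z hz; rw [mem_insert, mem_singleton] at hz
      rcases hz with rfl | rfl <;> assumption) (by simp) (by simp)
    rw [card_pair hpq, E_insert (by simpa using hpq), E_singleton, nb_sing_adj h] at h1
    simp at h1
  refine ⟨?_, hn⟩
  intro S hS hc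
  by_cases hpS : p ∈ S
  · by_cases hqS : q ∈ S
    · have h1 := hfree S hS hpS hqS
      have hadj : (addEdge G p q).Adj p q := by rw [addEdge_adj]; exact Or.inr ⟨hpq, Or.inl ⟨rfl, rfl⟩⟩
      obtain ⟨e1, -⟩ := delete_counts (G := addEdge G p q) hpS hqS hadj
      have e2 : E ((addEdge G p q).deleteEdges {s(p, q)}) S = E G S := by
        apply E_congr
        intro a _ b _
        rw [SimpleGraph.deleteEdges_adj, addEdge_adj]
        simp only [Set.mem_singleton_iff, Sym2.eq_iff]
        constructor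
        · rintro ⟨h | ⟨-, h⟩, h'⟩
          · exact h
          · exact absurd h h'
        · intro h
          refine ⟨Or.inl h, ?_⟩
          rintro (⟨h1, h2⟩ | ⟨h1, h2⟩)
          · exact hn (h1 ▸ h2 ▸ h)
          · exact hn (h1 ▸ h2 ▸ h.symm)
      obtain ⟨k, hk⟩ := E_even (G := G) (W := S)
      omega
    · rw [E_congr (G' := G)]
      · exact hL S hS hc
      · intro a ha b hb
        rw [addEdge_adj]
        constructor
        · rintro (h | ⟨-, ⟨h1, h2⟩ | ⟨h1, h2⟩⟩)
          · exact h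
          · exact absurd (h2 ▸ hb) hqS
          · exact absurd (h1 ▸ ha) hqS
        · exact Or.inl
  · rw [E_congr (G' := G)]
    · exact hL S hS hc
    · intro a ha b hb
      rw [addEdge_adj]
      constructor
      · rintro (h | ⟨-, ⟨h1, h2⟩ | ⟨h1, h2⟩⟩)
        · exact h
        · exact absurd (h1 ▸ ha) hpS
        · exact absurd (h2 ▸ hb) hpS
      · exact Or.inl

/-- one of the three pairs of neighbours of a degree three vertex is free -/
lemma exists_free {v p q r : V} (hL : Laman G W) (hv : v ∈ W) (hn : nb G W v = {p, q, r})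
    (hpq : p ≠ q) (hpr : p ≠ r) (hqr : q ≠ r) :
    Free G (W.erase v) p q ∨ Free G (W.erase v) q r ∨ Free G (W.erase v) p r := by
  by_contra hno
  push Not at hno
  obtain ⟨h1, h2, h3⟩ := hno
  unfold Free at h1 h2 h3
  push Not at h1 h2 h3
  obtain ⟨X, hX, hpX, hqX, hX'⟩ := h1
  obtain ⟨Y, hY, hqY, hrY, hY'⟩ := h2
  obtain ⟨Z, hZ, hpZ, hrZ, hZ'⟩ := h3
  have sub : ∀ S, S ⊆ W.erase v → S ⊆ W := fun S hS => hS.trans (erase_subset _ _)
  -- no nearly tight set contains p q r
  have main : ∀ S ⊆ W.erase v, p ∈ S → q ∈ S → r ∈ S → E G S + 8 ≤ 4 * S.card := by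
    intro S hS hp hq hr
    have hvS : v ∉ S := fun h => (notMem_erase v W) (hS h)
    have h1 := hL (insert v S) (insert_subset hv (sub S hS)) (by
      rw [card_insert_of_notMem hvS]
      have := card_pos.2 ⟨p, hp⟩; omega)
    rw [E_insert hvS, card_insert_of_notMem hvS] at h1
    have h2 : nb G S v = {p, q, r} := by
      rw [← hn]
      ext z
      rw [mem_nb, mem_nb]
      constructor
      · rintro ⟨h1, h2⟩; exact ⟨sub S hS h1, h2⟩
      · rintro ⟨h1, h2⟩
        refine ⟨?_, h2⟩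
        have : z ∈ nb G W v := mem_nb.2 ⟨h1, h2⟩
        rw [hn, mem_insert, mem_insert, mem_singleton] at this
        rcases this with rfl | rfl | rfl <;> assumption
    have h3 : ({p, q, r} : Finset V).card = 3 := card_eq_three.2 ⟨p, q, r, hpq, hpr, hqr, rfl⟩
    rw [h2, h3] at h1
    omega
  have join : ∀ A B : Finset V, A ⊆ W.erase v → B ⊆ W.erase v → 4 * A.card ≤ E G A + 6 →
      4 * B.card ≤ E G B + 6 → p ∈ A ∪ B → q ∈ A ∪ B → r ∈ A ∪ B → (A ∩ B).card ≤ 1 := by
    intro A B hA hB hA' hB' hp hq hr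
    by_contra hc
    push Not at hc
    have h1 := main (A ∪ B) (union_subset hA hB) hp hq hr
    have h2 := E_super (G := G) (S := A) (W := B)
    have h3 := hL (A ∩ B) (inter_subset_left.trans (sub A hA)) hc
    have h4 := card_union_add_card_inter A B
    omega
  have j1 := join X Y hX hY hX' hY' (mem_union_left _ hpX) (mem_union_left _ hqX)
    (mem_union_right _ hrY)
  have j2 := join X Z hX hZ hX' hZ' (mem_union_left _ hpX) (mem_union_left _ hqX)
    (mem_union_right _ hrZ)
  have j3 := join Y Z hY hZ hY' hZ' (mem_union_right _ hpZ) (mem_union_left _ hqY)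
    (mem_union_left _ hrY)
  have h1 := E_three (G := G) j1 j2 j3
  have h2 := main (X ∪ Y ∪ Z) (union_subset (union_subset hX hY) hZ)
    (mem_union_right _ hpZ) (mem_union_left _ (mem_union_left _ hqX)) (mem_union_right _ hrZ)
  have h3 := card_union_add_card_inter X Y
  have h4 := card_union_add_card_inter (X ∪ Y) Z
  have h5 : 1 ≤ (X ∩ Y).card := card_pos.2 ⟨q, mem_inter.2 ⟨hqX, hqY⟩⟩
  have h6 : 2 ≤ ((X ∪ Y) ∩ Z).card := by
    rw [← card_pair hpr]
    refine card_le_card ?_
    intro z hz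
    rw [mem_insert, mem_singleton] at hz
    rw [mem_inter, mem_union]
    rcases hz with rfl | rfl
    · exact ⟨Or.inl hpX, hpZ⟩
    · exact ⟨Or.inr hrY, hrZ⟩
  omega

/-- conclusion: a decomposition into two forests -/
def Two (G : SimpleGraph V) (W : Finset V) : Prop :=
  ∃ F1 F2 : SimpleGraph V, Forest F1 W ∧ Forest F2 W ∧
    ∀ a ∈ W, ∀ b ∈ W, G.Adj a b → F1.Adj a b ∨ F2.Adj a b

lemma Two.pendant {v p q : V} (hv : v ∈ W) (hvp : v ≠ p) (hvq : v ≠ q)
    (hn : nb G W v ⊆ {p, q}) (h : Two G (W.erase v)) : Two G W := by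
  obtain ⟨F1, F2, h1, h2, h3⟩ := h
  refine ⟨addPendant F1 v p hvp, addPendant F2 v q hvq, forest_addPendant hvp h1,
    forest_addPendant hvq h2, ?_⟩
  have key : ∀ b ∈ W, G.Adj v b → b = p ∨ b = q := by
    intro b hb hvb
    have := hn (mem_nb.2 ⟨hb, hvb⟩)
    simpa only [mem_insert, mem_singleton] using this
  intro a ha b hb hab
  rw [addPendant_adj, addPendant_adj]
  by_cases hav : a = v
  · subst hav
    rcases key b hb hab with h | h
    · exact Or.inl (Or.inr (Or.inl ⟨rfl, h⟩))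
    · exact Or.inr (Or.inr (Or.inl ⟨rfl, h⟩))
  · by_cases hbv : b = v
    · subst hbv
      rcases key a ha hab.symm with h | h
      · exact Or.inl (Or.inr (Or.inr ⟨h, rfl⟩))
      · exact Or.inr (Or.inr (Or.inr ⟨h, rfl⟩))
    · rcases h3 a (mem_erase.2 ⟨hav, ha⟩) b (mem_erase.2 ⟨hbv, hb⟩) hab with h | h
      · exact Or.inl (Or.inl ⟨hav, hbv, h⟩)
      · exact Or.inr (Or.inl ⟨hav, hbv, h⟩)

lemma Two.split {v p q r : V} (hv : v ∈ W) (hvp : v ≠ p) (hvq : v ≠ q) (hvr : v ≠ r)
    (hp : p ∈ W) (hq : q ∈ W) (hpq : p ≠ q) (npq : ¬ G.Adj p q)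
    (hn : nb G W v ⊆ {p, q, r}) (h : Two (addEdge G p q) (W.erase v)) : Two G W := by
  have gen : ∀ F1 F2 : SimpleGraph V, Forest F1 (W.erase v) → Forest F2 (W.erase v) →
      (∀ a ∈ W.erase v, ∀ b ∈ W.erase v, (addEdge G p q).Adj a b → F1.Adj a b ∨ F2.Adj a b) →
      F1.Adj p q → Two G W := by
    intro F1 F2 h1 h2 h3 hF
    refine ⟨subdiv F1 v p q hvp hvq, addPendant F2 v r hvr, forest_subdiv hvp hvq hF h1,
      forest_addPendant hvr h2, ?_⟩
    have key : ∀ b ∈ W, G.Adj v b → (b = p ∨ b = q) ∨ b = r := by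
      intro b hb hvb
      have := hn (mem_nb.2 ⟨hb, hvb⟩)
      simp only [mem_insert, mem_singleton] at this
      tauto
    intro a ha b hb hab
    rw [subdiv_adj, addPendant_adj]
    by_cases hav : a = v
    · subst hav
      rcases key b hb hab with h | h
      · exact Or.inl (Or.inr (Or.inl ⟨rfl, h⟩))
      · exact Or.inr (Or.inr (Or.inl ⟨rfl, h⟩))
    · by_cases hbv : b = v
      · subst hbv
        rcases key a ha hab.symm with h | h
        · exact Or.inl (Or.inr (Or.inr ⟨rfl, h⟩))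
        · exact Or.inr (Or.inr (Or.inr ⟨h, rfl⟩))
      · rcases h3 a (mem_erase.2 ⟨hav, ha⟩) b (mem_erase.2 ⟨hbv, hb⟩) (Or.inl hab) with h | h
        · left; left
          refine ⟨hav, hbv, h, ?_⟩
          rintro (⟨e1, e2⟩ | ⟨e1, e2⟩)
          · exact npq (e1 ▸ e2 ▸ hab)
          · exact npq (e1 ▸ e2 ▸ hab.symm)
        · exact Or.inr (Or.inl ⟨hav, hbv, h⟩)
  obtain ⟨F1, F2, h1, h2, h3⟩ := h
  rcases h3 p (mem_erase.2 ⟨hvp.symm, hp⟩) q (mem_erase.2 ⟨hvq.symm, hq⟩)
    (by rw [addEdge_adj]; exact Or.inr ⟨hpq, Or.inl ⟨rfl, rfl⟩⟩) with hF | hF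
  · exact gen F1 F2 h1 h2 h3 hF
  · exact gen F2 F1 h2 h1 (fun a ha b hb hab => (h3 a ha b hb hab).symm) hF

lemma Laman.mono {W' : Finset V} (h : W' ⊆ W) (hL : Laman G W) : Laman G W' :=
  fun S hS hc => hL S (hS.trans h) hc

theorem two_forests (n : ℕ) : ∀ (G : SimpleGraph V) (W : Finset V), W.card = n → Laman G W →
    Two G W := by
  induction n with
  | zero =>
    intro G W hW _
    rw [card_eq_zero] at hW
    subst hW
    refine ⟨⊥, ⊥, ?_, ?_, ?_⟩
    · intro S hS hne; exact absurd (subset_empty.1 hS) hne.ne_empty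
    · intro S hS hne; exact absurd (subset_empty.1 hS) hne.ne_empty
    · intro a ha; simp at ha
  | succ n ih =>
    intro G W hW hL
    by_cases hone : W.card ≤ 1
    · have hbot : Forest (⊥ : SimpleGraph V) W := by
        intro S hS hne
        obtain ⟨a, ha⟩ := hne
        refine ⟨a, ha, ?_⟩
        have : nb (⊥ : SimpleGraph V) S a = ∅ := by
          rw [eq_empty_iff_forall_notMem]; intro z hz; rw [mem_nb] at hz; exact hz.2
        rw [this]; simp
      refine ⟨⊥, ⊥, hbot, hbot, ?_⟩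
      intro a ha b hb hab
      exact absurd (card_le_one.1 hone a ha b hb) hab.ne
    have h2 : 2 ≤ W.card := by omega
    -- vertex of small degree
    obtain ⟨v, hv, hd⟩ : ∃ v ∈ W, (nb G W v).card ≤ 3 := by
      by_contra hno
      push Not at hno
      have h1 := hL W (Subset.refl _) h2
      have h3 : 4 * W.card ≤ E G W := by
        unfold E
        calc 4 * W.card = ∑ a ∈ W, 4 := by simp [mul_comm]
          _ ≤ _ := sum_le_sum (fun a ha => hno a ha)
      omega
    have hcard : (W.erase v).card = n := by rw [card_erase_of_mem hv]; omega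
    have hLe : Laman G (W.erase v) := hL.mono (erase_subset _ _)
    have hnbsub : nb G W v ⊆ W.erase v := by
      intro z hz
      rw [mem_nb] at hz
      exact mem_erase.2 ⟨hz.2.ne', hz.1⟩
    by_cases hd2 : (nb G W v).card ≤ 2
    · -- extend to a pair inside `W.erase v`
      obtain ⟨w, hw⟩ : (W.erase v).Nonempty := by rw [← card_pos]; omega
      have hex : ∃ p q, p ∈ W.erase v ∧ q ∈ W.erase v ∧ nb G W v ⊆ {p, q} := by
        rcases Nat.lt_or_ge (nb G W v).card 1 with h0 | h0
        · refine ⟨w, w, hw, hw, ?_⟩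
          rw [card_eq_zero.1 (show (nb G W v).card = 0 by omega)]; exact empty_subset _
        · rcases Nat.lt_or_ge (nb G W v).card 2 with h1 | h1
          · obtain ⟨a, ha⟩ := card_eq_one.1 (show (nb G W v).card = 1 by omega)
            have haw : a ∈ W.erase v := hnbsub (by rw [ha]; simp)
            exact ⟨a, a, haw, haw, by rw [ha]; simp⟩
          · obtain ⟨a, b, -, hab⟩ := card_eq_two.1 (show (nb G W v).card = 2 by omega)
            have haw : a ∈ W.erase v := hnbsub (by rw [hab]; simp)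
            have hbw : b ∈ W.erase v := hnbsub (by rw [hab]; simp)
            exact ⟨a, b, haw, hbw, by rw [hab]⟩
      obtain ⟨p, q, hp, hq, hpq⟩ := hex
      exact Two.pendant hv (mem_erase.1 hp).1.symm (mem_erase.1 hq).1.symm hpq
        (ih G (W.erase v) hcard hLe)
    · obtain ⟨p, q, r, hpq, hpr, hqr, hnb⟩ := card_eq_three.1 (show (nb G W v).card = 3 by omega)
      have hp : p ∈ W.erase v := hnbsub (by rw [hnb]; simp)
      have hq : q ∈ W.erase v := hnbsub (by rw [hnb]; simp)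
      have hr : r ∈ W.erase v := hnbsub (by rw [hnb]; simp)
      have hvp : v ≠ p := (mem_erase.1 hp).1.symm
      have hvq : v ≠ q := (mem_erase.1 hq).1.symm
      have hvr : v ≠ r := (mem_erase.1 hr).1.symm
      rcases exists_free hL hv hnb hpq hpr hqr with hf | hf | hf
      · obtain ⟨hL', nadj⟩ := laman_addEdge hLe hp hq hpq hf
        exact Two.split hv hvp hvq hvr (mem_erase.1 hp).2 (mem_erase.1 hq).2 hpq nadj
          (by rw [hnb]) (ih _ _ hcard hL')
      · obtain ⟨hL', nadj⟩ := laman_addEdge hLe hq hr hqr hf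
        exact Two.split hv hvq hvr hvp (mem_erase.1 hq).2 (mem_erase.1 hr).2 hqr nadj
          (by rw [hnb]; intro z; simp only [mem_insert, mem_singleton]; tauto) (ih _ _ hcard hL')
      · obtain ⟨hL', nadj⟩ := laman_addEdge hLe hp hr hpr hf
        exact Two.split hv hvp hvr hvq (mem_erase.1 hp).2 (mem_erase.1 hr).2 hpr nadj
          (by rw [hnb]; intro z; simp only [mem_insert, mem_singleton]; tauto) (ih _ _ hcard hL')

end Pool.Agent.MP1ed552
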