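import Pool.Agent.Work.MP_1ed552_co.Counts

set_option autoImplicit false

namespace Pool.Agent.MP1ed552

variable {V : Type} {ι : Type}

/-- A minor model of the pattern `R` in `G`, with all branch sets inside `W`. -/
def Model (R : ι → ι → Prop) (G : SimpleGraph V) (W : Set V) : Prop :=
  ∃ f : ι → Set V, (∀ i, f i ⊆ W) ∧ (∀ i, (G.induce (f i)).Connected) ∧
    (∀ i j, i ≠ j → Disjoint (f i) (f j)) ∧
    (∀ i j, R i j → ∃ a ∈ f i, ∃ b ∈ f j, G.Adj a b)

variable {R : ι → ι → Prop} {G G' : SimpleGraph V} {W W' : Set V}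

lemma Model.mono_set (h : W ⊆ W') (hm : Model R G W) : Model R G W' := by
  obtain ⟨f, h1, h2, h3, h4⟩ := hm
  exact ⟨f, fun i => (h1 i).trans h, h2, h3, h4⟩

lemma Model.mono_graph (h : G ≤ G') (hm : Model R G W) : Model R G' W := by
  obtain ⟨f, h1, h2, h3, h4⟩ := hm
  refine ⟨f, h1, fun i => ?_, h3, fun i j hij => ?_⟩
  · exact (h2 i).mono (fun a b hab => h hab)
  · obtain ⟨a, ha, b, hb, hab⟩ := h4 i j hij
    exact ⟨a, ha, b, hb, h hab⟩

/-- connectedness from a centre -/
lemma connected_of_reach {D : Set V} {d : V} (hd : d ∈ D)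
    (h : ∀ z (hz : z ∈ D), (G.induce D).Reachable ⟨d, hd⟩ ⟨z, hz⟩) : (G.induce D).Connected := by
  have : Nonempty D := ⟨⟨d, hd⟩⟩
  refine SimpleGraph.Connected.mk ?_
  intro a b
  exact (h a.1 a.2).symm.trans (h b.1 b.2)

lemma connected_singleton (v : V) : (G.induce ({v} : Set V)).Connected := by
  refine connected_of_reach (d := v) rfl ?_
  rintro z hz
  have : z = v := hz
  subst this
  exact SimpleGraph.Reachable.refl _

/-- A star is connected. -/
lemma connected_star {D : Set V} {d : V} (hd : d ∈ D) (h : ∀ z ∈ D, z ≠ d → G.Adj d z) :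
    (G.induce D).Connected := by
  refine connected_of_reach hd ?_
  intro z hz
  by_cases hzd : z = d
  · subst hzd; exact SimpleGraph.Reachable.refl _
  · exact SimpleGraph.Adj.reachable (by simpa using h z hz hzd)

/-- Contract `y` into `x`. -/
def contract (G : SimpleGraph V) (x y : V) : SimpleGraph V where
  Adj a b := a ≠ b ∧ (G.Adj a b ∨ (a = x ∧ G.Adj y b) ∨ (b = x ∧ G.Adj y a))
  symm := ⟨by
    rintro a b ⟨h1, h2 | h2 | h2⟩
    · exact ⟨h1.symm, Or.inl h2.symm⟩
    · exact ⟨h1.symm, Or.inr (Or.inr h2)⟩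
    · exact ⟨h1.symm, Or.inr (Or.inl h2)⟩⟩
  loopless := ⟨by rintro a ⟨h, -⟩; exact h rfl⟩

lemma contract_adj {x y a b : V} : (contract G x y).Adj a b ↔
    a ≠ b ∧ (G.Adj a b ∨ (a = x ∧ G.Adj y b) ∨ (b = x ∧ G.Adj y a)) := Iff.rfl

lemma Model.of_contract {x y : V} (hx : x ∈ W) (hy : y ∈ W) (hxy : G.Adj x y)
    (hm : Model R (contract G x y) (W \ {y})) : Model R G W := by
  classical
  obtain ⟨f, h1, h2, h3, h4⟩ := hm
  have hyf : ∀ i, y ∉ f i := fun i hi => (h1 i hi).2 rfl
  refine ⟨fun i => if x ∈ f i then insert y (f i) else f i, ?_, ?_, ?_, ?_⟩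
  · intro i z hz
    by_cases hxi : x ∈ f i
    · simp only [if_pos hxi] at hz
      rcases hz with rfl | hz
      · exact hy
      · exact (h1 i hz).1
    · simp only [if_neg hxi] at hz
      exact (h1 i hz).1
  · intro i
    show (G.induce (if x ∈ f i then insert y (f i) else f i)).Connected
    by_cases hxi : x ∈ f i
    · rw [if_pos hxi]
      have hxi' : x ∈ insert y (f i) := Or.inr hxi
      -- map each edge
      have step : ∀ a b (ha : a ∈ f i) (hb : b ∈ f i), (contract G x y).Adj a b →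
          (G.induce (insert y (f i))).Reachable ⟨a, Or.inr ha⟩ ⟨b, Or.inr hb⟩ := by
        intro a b ha hb hab
        rw [contract_adj] at hab
        rcases hab.2 with h | ⟨rfl, h⟩ | ⟨rfl, h⟩
        · exact SimpleGraph.Adj.reachable (by simpa using h)
        · have e1 : (G.induce (insert y (f i))).Adj ⟨a, Or.inr ha⟩ ⟨y, Or.inl rfl⟩ := by simpa using hxy
          have e2 : (G.induce (insert y (f i))).Adj ⟨y, Or.inl rfl⟩ ⟨b, Or.inr hb⟩ := by simpa using h
          exact e1.reachable.trans e2.reachable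
        · have e1 : (G.induce (insert y (f i))).Adj ⟨a, Or.inr ha⟩ ⟨y, Or.inl rfl⟩ := by simpa using h.symm
          have e2 : (G.induce (insert y (f i))).Adj ⟨y, Or.inl rfl⟩ ⟨b, Or.inr hb⟩ := by simpa using hxy.symm
          exact e1.reachable.trans e2.reachable
      have walk : ∀ (a b : f i), ((contract G x y).induce (f i)).Reachable a b →
          (G.induce (insert y (f i))).Reachable ⟨a.1, Or.inr a.2⟩ ⟨b.1, Or.inr b.2⟩ := by
        intro a b hab
        obtain ⟨p⟩ := hab
        induction p with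
        | nil => exact SimpleGraph.Reachable.refl _
        | @cons u v w hadj p ih => exact (step u.1 v.1 u.2 v.2 hadj).trans ih
      refine connected_of_reach hxi' ?_
      intro z hz
      rcases hz with rfl | hz
      · exact SimpleGraph.Adj.reachable (by simpa using hxy)
      · exact walk ⟨x, hxi⟩ ⟨z, hz⟩ ((h2 i).preconnected _ _)
    · rw [if_neg hxi]
      refine (h2 i).mono ?_
      intro a b hab
      have hab' : (contract G x y).Adj a.1 b.1 := hab
      rw [contract_adj] at hab'
      rcases hab'.2 with h | ⟨h, -⟩ | ⟨h, -⟩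
      · exact h
      · exact absurd (h ▸ a.2) hxi
      · exact absurd (h ▸ b.2) hxi
  · intro i j hij
    have hd := h3 i j hij
    rw [Set.disjoint_left] at hd ⊢
    intro z
    by_cases hxi : x ∈ f i <;> by_cases hxj : x ∈ f j
    · exact absurd hxj (hd hxi)
    · simp only [if_pos hxi, if_neg hxj]
      rintro (rfl | hz)
      · exact hyf j
      · exact hd hz
    · simp only [if_neg hxi, if_pos hxj]
      intro hz
      rintro (rfl | hz')
      · exact hyf i hz
      · exact hd hz hz'
    · simp only [if_neg hxi, if_neg hxj]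
      exact fun hz => hd hz
  · intro i j hij
    obtain ⟨a, ha, b, hb, hab⟩ := h4 i j hij
    have hsub : ∀ i z, z ∈ f i → z ∈ (if x ∈ f i then insert y (f i) else f i) := by
      intro i z hz; split_ifs
      · exact Or.inr hz
      · exact hz
    rw [contract_adj] at hab
    rcases hab.2 with h | ⟨rfl, h⟩ | ⟨rfl, h⟩
    · exact ⟨a, hsub _ _ ha, b, hsub _ _ hb, h⟩
    · exact ⟨y, by simp only [if_pos ha]; exact Or.inl rfl, b, hsub _ _ hb, h⟩
    · exact ⟨a, hsub _ _ ha, y, by simp only [if_pos hb]; exact Or.inl rfl, h.symm⟩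

/-- the pattern `K_5` -/
def RK5 : Fin 5 → Fin 5 → Prop := fun i j => i ≠ j

/-- the pattern `K_{3,3}` -/
def RK33 : Bool × Fin 3 → Bool × Fin 3 → Prop := fun i j => i.1 ≠ j.1

/-- No `K_5` and no `K_{3,3}` minor inside `W`. -/
def Good (G : SimpleGraph V) (W : Set V) : Prop := ¬ Model RK5 G W ∧ ¬ Model RK33 G W

lemma Good.mono_set (h : W' ⊆ W) (hg : Good G W) : Good G W' :=
  ⟨fun hm => hg.1 (hm.mono_set h), fun hm => hg.2 (hm.mono_set h)⟩

lemma Good.mono_graph (h : G' ≤ G) (hg : Good G W) : Good G' W :=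
  ⟨fun hm => hg.1 (hm.mono_graph h), fun hm => hg.2 (hm.mono_graph h)⟩

lemma Good.contract {x y : V} (hx : x ∈ W) (hy : y ∈ W) (hxy : G.Adj x y) (hg : Good G W) :
    Good (contract G x y) (W \ {y}) :=
  ⟨fun hm => hg.1 (hm.of_contract hx hy hxy), fun hm => hg.2 (hm.of_contract hx hy hxy)⟩

end Pool.Agent.MP1ed552
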