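import Pool.Agent.Work.MP_1ed552_co.Model

set_option autoImplicit false

namespace Pool.Agent.MP1ed552

open Finset

variable {V : Type} [DecidableEq V]

/-- The bound `2e + 8 ≤ 4n + t` in ordered form. -/
def Bd (G : SimpleGraph V) (W : Finset V) : Prop := 6 * E G W + 48 ≤ 24 * W.card + T G W

/-- induction hypothesis: the bound holds for everything smaller -/
def IH (G : SimpleGraph V) (W : Finset V) : Prop :=
  ∀ (G' : SimpleGraph V) (W' : Finset V), W'.card + E G' W' < W.card + E G W → 4 ≤ W'.card →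
    Good G' (W' : Set V) → Bd G' W'

variable {G : SimpleGraph V} {W : Finset V} {x y u : V}

lemma deg_ge_three (ih : IH G W) (hg : Good G (W : Set V)) (h5 : 5 ≤ W.card) (hn : ¬ Bd G W)
    (hy : y ∈ W) : 3 ≤ (nb G W y).card := by
  by_contra hd
  push Not at hd
  have hc : (W.erase y).card = W.card - 1 := card_erase_of_mem hy
  have hE := E_erase (G := G) hy
  have hT := T_erase (G := G) hy
  have h1 : Bd G (W.erase y) := by
    apply ih
    · rw [hc]; omega
    · rw [hc]; omega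
    · exact hg.mono_set (by intro z hz; exact mem_of_mem_erase (mem_coe.1 hz))
  unfold Bd at *
  rw [hc] at h1
  omega

/-- effect of deleting an edge -/
lemma delete_counts (hx : x ∈ W) (hy : y ∈ W) (hxy : G.Adj x y) :
    E G W = E (G.deleteEdges {s(x, y)}) W + 2 ∧
    T G W = T (G.deleteEdges {s(x, y)}) W + 6 * (nb G (nb G W y) x).card := by
  set G' := G.deleteEdges {s(x, y)} with hG'
  have adj' : ∀ a b, G'.Adj a b ↔ G.Adj a b ∧ ¬ ((a = x ∧ b = y) ∨ (a = y ∧ b = x)) := by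
    intro a b
    rw [hG', SimpleGraph.deleteEdges_adj]
    simp only [Set.mem_singleton_iff, Sym2.eq_iff]
  have hxy' : x ≠ y := hxy.ne
  have hnb : nb G' W y = (nb G W y).erase x := by
    ext z
    simp only [mem_nb, mem_erase, adj']
    constructor
    · rintro ⟨h1, h2, h3⟩
      refine ⟨?_, h1, h2⟩
      intro hzx
      exact h3 (Or.inr ⟨trivial, hzx⟩)
    · rintro ⟨h1, h2, h3⟩
      refine ⟨h2, h3, ?_⟩
      rintro (⟨h, -⟩ | ⟨-, h⟩)
      · exact hxy' h.symm
      · exact h1 h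
  have hxn : x ∈ nb G W y := mem_nb.2 ⟨hx, hxy.symm⟩
  have hc1 : ∀ a ∈ W.erase y, ∀ b ∈ W.erase y, (G.Adj a b ↔ G'.Adj a b) := by
    intro a ha b hb
    rw [adj']
    constructor
    · intro h
      refine ⟨h, ?_⟩
      rintro (⟨-, h'⟩ | ⟨h', -⟩)
      · exact (mem_erase.1 hb).1 h'
      · exact (mem_erase.1 ha).1 h'
    · exact fun h => h.1
  have e1 := E_erase (G := G) hy
  have e2 := E_erase (G := G') hy
  have t1 := T_erase (G := G) hy
  have t2 := T_erase (G := G') hy
  rw [← E_congr hc1] at e2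
  rw [← T_congr hc1] at t2
  rw [hnb] at e2 t2
  have hsub : ∀ z ∈ (nb G W y).erase x, z ∈ W.erase y := by
    intro z hz
    rw [mem_erase, mem_nb] at hz
    rw [mem_erase]
    exact ⟨hz.2.2.ne', hz.2.1⟩
  have t3 : E G' ((nb G W y).erase x) = E G ((nb G W y).erase x) :=
    (E_congr (fun a ha b hb => hc1 a (hsub a ha) b (hsub b hb))).symm
  have t4 := E_erase (G := G) hxn
  have c1 : ((nb G W y).erase x).card = (nb G W y).card - 1 := card_erase_of_mem hxn
  have c2 : 0 < (nb G W y).card := card_pos.2 ⟨x, hxn⟩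
  rw [t3] at t2
  constructor <;> omega

lemma edge_le_one (ih : IH G W) (hg : Good G (W : Set V)) (h5 : 5 ≤ W.card) (hn : ¬ Bd G W)
    (hx : x ∈ W) (hy : y ∈ W) (hxy : G.Adj x y) : (nb G (nb G W y) x).card ≤ 1 := by
  by_contra hk
  push Not at hk
  obtain ⟨e1, e2⟩ := delete_counts hx hy hxy
  have h1 : Bd (G.deleteEdges {s(x, y)}) W := by
    apply ih
    · omega
    · omega
    · exact hg.mono_graph (SimpleGraph.deleteEdges_le _)
  unfold Bd at *
  omega

/-- effect of contraction -/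
lemma contract_counts (hx : x ∈ W) (hy : y ∈ W) (hxy : G.Adj x y) (s : ℕ)
    (hs : ∑ u ∈ nb G ((W.erase y).erase x) y \ nb G ((W.erase y).erase x) x,
      (nb G (nb G ((W.erase y).erase x) x \ nb G ((W.erase y).erase x) y) u).card ≤ s) :
    E G W = E (contract G x y) (W.erase y) + 2 +
      2 * (nb G ((W.erase y).erase x) x ∩ nb G ((W.erase y).erase x) y).card ∧
    T (contract G x y) (W.erase y) +
      6 * (nb G ((W.erase y).erase x) x ∩ nb G ((W.erase y).erase x) y).card ≤ T G W + 6 * s := by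
  set G' := contract G x y with hG'
  set W0 := (W.erase y).erase x with hW0
  set Nx := nb G W0 x with hNx
  set Ny := nb G W0 y with hNy
  have hxy' : x ≠ y := hxy.ne
  have hx' : x ∈ W.erase y := mem_erase.2 ⟨hxy', hx⟩
  have hxW0 : x ∉ W0 := notMem_erase x _
  have hyW0 : y ∉ W0 := by
    intro h; exact (notMem_erase y W) (mem_of_mem_erase h)
  -- nb in G'
  have hnb' : nb G' (W.erase y) x = Nx ∪ Ny := by
    ext z
    simp only [mem_nb, mem_union, hNx, hNy, hW0, mem_erase, hG', contract_adj]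
    constructor
    · rintro ⟨⟨h1, h2⟩, h3, h4 | ⟨-, h4⟩ | ⟨h4, h5⟩⟩
      · exact Or.inl ⟨⟨h3.symm, h1, h2⟩, h4⟩
      · exact Or.inr ⟨⟨h3.symm, h1, h2⟩, h4⟩
      · exact absurd h4.symm h3
    · rintro (⟨⟨h1, h2, h3⟩, h4⟩ | ⟨⟨h1, h2, h3⟩, h4⟩)
      · exact ⟨⟨h2, h3⟩, Ne.symm h1, Or.inl h4⟩
      · exact ⟨⟨h2, h3⟩, Ne.symm h1, Or.inr (Or.inl ⟨trivial, h4⟩)⟩
  have hc : ∀ a ∈ W0, ∀ b ∈ W0, (G.Adj a b ↔ G'.Adj a b) := by
    intro a ha b hb
    rw [hG', contract_adj]
    constructor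
    · intro h; exact ⟨h.ne, Or.inl h⟩
    · rintro ⟨-, h | ⟨h, -⟩ | ⟨h, -⟩⟩
      · exact h
      · exact absurd (h ▸ ha) hxW0
      · exact absurd (h ▸ hb) hxW0
  have e1 := E_erase (G := G) hy
  have e2 := E_erase (G := G) hx'
  have e3 := E_erase (G := G') hx'
  have t1 := T_erase (G := G) hy
  have t2 := T_erase (G := G) hx'
  have t3 := T_erase (G := G') hx'
  have n1 : nb G (W.erase y) x = Nx := by
    ext z; simp only [mem_nb, hNx, hW0, mem_erase]
    constructor
    · rintro ⟨⟨h1, h2⟩, h3⟩; exact ⟨⟨h3.ne', h1, h2⟩, h3⟩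
    · rintro ⟨⟨h1, h2, h3⟩, h4⟩; exact ⟨⟨h2, h3⟩, h4⟩
  have n2 : nb G W y = insert x Ny := by
    ext z; simp only [mem_nb, hNy, hW0, mem_erase, mem_insert]
    constructor
    · rintro ⟨h1, h2⟩
      by_cases hz : z = x
      · exact Or.inl hz
      · exact Or.inr ⟨⟨hz, h2.ne', h1⟩, h2⟩
    · rintro (rfl | ⟨⟨h1, h2, h3⟩, h4⟩)
      · exact ⟨hx, hxy.symm⟩
      · exact ⟨h3, h4⟩
  have hxNy : x ∉ Ny := fun h => hxW0 (nb_subset h)
  have n3 : nb G Ny x = Nx ∩ Ny := by
    ext z; simp only [hNx, hNy, mem_nb, mem_inter]; tauto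
  rw [n2] at e1 t1
  rw [n1] at e2 t2
  rw [hnb', ← E_congr hc] at e3
  rw [hnb', ← T_congr hc] at t3
  have t4 := E_insert (G := G) hxNy
  rw [n3] at t4
  have c1 : (insert x Ny).card = Ny.card + 1 := card_insert_of_notMem hxNy
  have c2 := card_union_add_card_inter Nx Ny
  have t5 : E G' (Nx ∪ Ny) = E G (Nx ∪ Ny) := by
    refine (E_congr (fun a ha b hb => hc a ?_ b ?_)).symm
    · rw [mem_union] at ha; exact ha.elim (fun h => nb_subset h) (fun h => nb_subset h)
    · rw [mem_union] at hb; exact hb.elim (fun h => nb_subset h) (fun h => nb_subset h)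
  have t6 := E_union_le (G := G) (S := Nx) (W := Ny)
  rw [t5] at t3
  rw [← hW0] at e2 t2
  constructor <;> omega

lemma contract_ge (ih : IH G W) (hg : Good G (W : Set V)) (h5 : 5 ≤ W.card) (hn : ¬ Bd G W)
    (hx : x ∈ W) (hy : y ∈ W) (hxy : G.Adj x y) (s : ℕ)
    (hs : ∑ u ∈ nb G ((W.erase y).erase x) y \ nb G ((W.erase y).erase x) x,
      (nb G (nb G ((W.erase y).erase x) x \ nb G ((W.erase y).erase x) y) u).card ≤ s) :
    3 ≤ (nb G ((W.erase y).erase x) x ∩ nb G ((W.erase y).erase x) y).card + s := by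
  by_contra hk
  push Not at hk
  obtain ⟨e1, t1⟩ := contract_counts hx hy hxy s hs
  have hc : (W.erase y).card = W.card - 1 := card_erase_of_mem hy
  have h1 : Bd (contract G x y) (W.erase y) := by
    apply ih
    · rw [hc]; omega
    · rw [hc]; omega
    · rw [coe_erase]
      exact hg.contract (by simpa using hx) (by simpa using hy) hxy
  unfold Bd at *
  rw [hc] at h1
  omega

end Pool.Agent.MP1ed552
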