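import Pool.Agent.Work.MP_1ed552_co.Sparse

set_option autoImplicit false

namespace Pool.Agent.MP1ed552

open Finset

variable {V : Type} [DecidableEq V] {G : SimpleGraph V} {W : Finset V}

lemma nb_empty (a : V) : nb G ∅ a = ∅ := by simp [nb]
lemma T_empty : T G ∅ = 0 := by simp [T]
lemma E_singleton (d : V) : E G {d} = 0 := by
  have := E_insert (G := G) (S := ∅) (y := d) (by simp)
  simpa [E_empty, nb_empty] using this
lemma T_singleton (d : V) : T G {d} = 0 := by
  have := T_insert (G := G) (S := ∅) (y := d) (by simp)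
  simpa [E_empty, T_empty, nb_empty] using this
lemma nb_sing_adj {a d : V} (h : G.Adj a d) : nb G {d} a = {d} := by
  have := nb_insert_adj (S := ∅) h
  simpa [nb_empty] using this
lemma nb_sing_nadj {a d : V} (h : ¬ G.Adj a d) : nb G {d} a = ∅ := by
  have := nb_insert_nadj (S := ∅) h
  simpa [nb_empty] using this

lemma base_four {W : Finset V} (h : W.card = 4) : Bd G W := by
  unfold Bd
  obtain ⟨a, t, hat, rfl, ht⟩ := Finset.card_eq_succ.1 h
  obtain ⟨b, c, d, hbc, hbd, hcd, rfl⟩ := Finset.card_eq_three.1 ht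
  rw [h]
  simp only [mem_insert, mem_singleton, not_or] at hat
  obtain ⟨hab, hac, had⟩ := hat
  rw [E_insert (by simp [hab, hac, had]), T_insert (by simp [hab, hac, had])]
  rw [E_insert (by simp [hbc, hbd]), T_insert (by simp [hbc, hbd])]
  rw [E_insert (by simp [hcd] : c ∉ {d}), T_insert (by simp [hcd] : c ∉ {d})]
  rw [E_singleton, T_singleton]
  by_cases h1 : G.Adj a b <;> by_cases h2 : G.Adj a c <;> by_cases h3 : G.Adj a d <;>
  by_cases h4 : G.Adj b c <;> by_cases h5 : G.Adj b d <;> by_cases h6 : G.Adj c d <;>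
  simp [nb_insert_adj, nb_insert_nadj, nb_sing_adj, nb_sing_nadj, E_empty, E_singleton,
    E_insert, h1, h2, h3, h4, h5, h6, hbc, hbd, hcd]

/-- the four-cycle `x q u r` is tight, so separations along it are harmless -/
lemma sep_case (ih : IH G W) (hg : Good G (W : Set V)) (hn : ¬ Bd G W)
    {x u p q r : V} (hx : x ∈ W) (hu : u ∈ W) (hp : p ∈ W) (hq : q ∈ W) (hr : r ∈ W)
    (hxu : x ≠ u) (hpq : p ≠ q) (hpr : p ≠ r) (hqr : q ≠ r)
    (nxu : ¬ G.Adj x u) (axp : G.Adj x p) (axq : G.Adj x q) (axr : G.Adj x r)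
    (aup : G.Adj u p) (auq : G.Adj u q) (aur : G.Adj u r) (nqr : ¬ G.Adj q r)
    {D : Finset V} (hD : D ⊆ W) (hne : D.Nonempty)
    (hDx : x ∉ D) (hDu : u ∉ D) (hDp : p ∉ D) (hDq : q ∉ D) (hDr : r ∉ D)
    (hcl : ∀ z ∈ D, ∀ w ∈ W, G.Adj z w → w ∈ D ∨ w = x ∨ w = u ∨ w = q ∨ w = r) : False := by
  set S : Finset V := {x, u, q, r} with hS
  set A := D ∪ S with hA
  set B := W \ D with hB
  have hSW : S ⊆ W := by
    intro z hz
    simp only [hS, mem_insert, mem_singleton] at hz
    rcases hz with rfl | rfl | rfl | rfl <;> assumption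
  have hSD : Disjoint S D := by
    rw [disjoint_left]; intro z hz
    simp only [hS, mem_insert, mem_singleton] at hz
    rcases hz with rfl | rfl | rfl | rfl <;> assumption
  have hAB : A ∪ B = W := by
    ext z; simp only [hA, hB, mem_union, mem_sdiff]
    constructor
    · rintro ((h | h) | h)
      · exact hD h
      · exact hSW h
      · exact h.1
    · intro h
      by_cases hz : z ∈ D
      · exact Or.inl (Or.inl hz)
      · exact Or.inr ⟨h, hz⟩
  have hAiB : A ∩ B = S := by
    ext z; simp only [hA, hB, mem_union, mem_sdiff, mem_inter]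
    constructor
    · rintro ⟨h1 | h1, h2, h3⟩
      · exact absurd h1 h3
      · exact h1
    · intro h
      exact ⟨Or.inr h, hSW h, fun h' => (disjoint_left.1 hSD) h h'⟩
  have hsep : ∀ a ∈ A, a ∉ B → ∀ b ∈ B, b ∉ A → ¬ G.Adj a b := by
    intro a ha ha' b hb hb' hab
    simp only [hA, hB, mem_union, mem_sdiff, not_and, not_not, not_or] at ha ha' hb hb'
    have haD : a ∈ D := by
      rcases ha with h | h
      · exact h
      · exact ha' (hSW h)
    rcases hcl a haD b hb.1 hab with h | h
    · exact hb.2 h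
    · apply hb'.2
      simp only [hS, mem_insert, mem_singleton]
      tauto
  have hxq := axq.ne
  have hxr := axr.ne
  have huq := auq.ne
  have hur := aur.ne
  have m1 : x ∉ ({u, q, r} : Finset V) := by simp [hxu, hxq, hxr]
  have m2 : u ∉ ({q, r} : Finset V) := by simp [huq, hur]
  have m3 : q ∉ ({r} : Finset V) := by simp [hqr]
  have hScard : S.card = 4 := by
    rw [hS, card_insert_of_notMem m1, card_insert_of_notMem m2, card_insert_of_notMem m3,
      card_singleton]
  have n3 : nb G {r} q = ∅ := nb_sing_nadj nqr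
  have n2 : nb G {q, r} u = {q, r} := by
    rw [nb_insert_adj auq, nb_sing_adj aur]
  have n1 : nb G {u, q, r} x = {q, r} := by
    rw [nb_insert_nadj nxu, nb_insert_adj axq, nb_sing_adj axr]
  have cqr : ({q, r} : Finset V).card = 2 := by
    rw [card_insert_of_notMem m3, card_singleton]
  have e3 : E G {q, r} = 0 := by
    rw [E_insert m3, E_singleton, n3]; rfl
  have t3 : T G {q, r} = 0 := by
    rw [T_insert m3, T_singleton, n3, E_empty]
  have e2 : E G {u, q, r} = 4 := by
    rw [E_insert m2, e3, n2, cqr]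
  have t2 : T G {u, q, r} = 0 := by
    rw [T_insert m2, t3, n2, e3]
  have e1 : E G S = 8 := by
    rw [hS, E_insert m1, e2, n1, cqr]
  have t1 : T G S = 0 := by
    rw [hS, T_insert m1, t2, n1, e3]
  have hE := E_sep hsep
  have hT := T_sep hsep
  rw [hAB, hAiB, e1] at hE
  rw [hAB, hAiB, t1] at hT
  have hC := card_union_add_card_inter A B
  rw [hAB, hAiB, hScard] at hC
  have hAW : A ⊆ W := by rw [← hAB]; exact subset_union_left
  have hBW : B ⊆ W := sdiff_subset
  have hAlt : A.card < W.card := by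
    apply card_lt_card
    refine ⟨hAW, fun h => ?_⟩
    have := h hp
    simp only [hA, hS, mem_union, mem_insert, mem_singleton] at this
    rcases this with h | h | h | h | h
    · exact hDp h
    · exact axp.ne h.symm
    · exact aup.ne h.symm
    · exact hpq h
    · exact hpr h
  have hBlt : B.card < W.card := by
    apply card_lt_card
    refine ⟨hBW, fun h => ?_⟩
    obtain ⟨z, hz⟩ := hne
    have := h (hD hz)
    rw [hB, mem_sdiff] at this
    exact this.2 hz
  have hSA : S ⊆ A := subset_union_right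
  have hSB : S ⊆ B := by rw [← hAiB]; exact inter_subset_right
  have b1 : Bd G A := by
    apply ih
    · have := E_mono (G := G) hAW; omega
    · rw [← hScard]; exact card_le_card hSA
    · exact hg.mono_set (by exact_mod_cast hAW)
  have b2 : Bd G B := by
    apply ih
    · have := E_mono (G := G) hBW; omega
    · rw [← hScard]; exact card_le_card hSB
    · exact hg.mono_set (by exact_mod_cast hBW)
  unfold Bd at *
  omega

/-- the component of `d` in `R` -/
lemma exists_component (R : Finset V) {d : V} (hd : d ∈ R) :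
    ∃ D : Finset V, D ⊆ R ∧ d ∈ D ∧ (G.induce (D : Set V)).Connected ∧
      ∀ z ∈ D, ∀ w ∈ R, G.Adj z w → w ∈ D := by
  classical
  let D := R.filter (fun z => Relation.ReflTransGen (fun a b => G.Adj a b ∧ b ∈ R) d z)
  have hdD : d ∈ D := by simp only [D, mem_filter]; exact ⟨hd, Relation.ReflTransGen.refl⟩
  refine ⟨D, filter_subset _ _, hdD, ?_, ?_⟩
  · have key : ∀ z, Relation.ReflTransGen (fun a b => G.Adj a b ∧ b ∈ R) d z →
        ∃ hz : z ∈ (D : Set V), (G.induce (D : Set V)).Reachable ⟨d, hdD⟩ ⟨z, hz⟩ := by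
      intro z hz
      induction hz with
      | refl => exact ⟨hdD, SimpleGraph.Reachable.refl _⟩
      | @tail b c hb hc ih =>
        obtain ⟨hbD, hr⟩ := ih
        have hcD : c ∈ (D : Set V) := by
          simp only [D, coe_filter, Set.mem_ofPred_eq]
          exact ⟨hc.2, hb.tail hc⟩
        refine ⟨hcD, hr.trans ?_⟩
        exact SimpleGraph.Adj.reachable (by simpa using hc.1)
    refine connected_of_reach (d := d) hdD ?_
    intro z hz
    have : Relation.ReflTransGen (fun a b => G.Adj a b ∧ b ∈ R) d z := by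
      simp only [D, coe_filter, Set.mem_ofPred_eq] at hz
      exact hz.2
    obtain ⟨_, h⟩ := key z this
    exact h
  · intro z hz w hw hzw
    simp only [D, mem_filter] at hz ⊢
    exact ⟨hw, hz.2.tail ⟨hzw, hw⟩⟩

/-- building a `K_{3,3}` model -/
lemma model_K33 {x u a b c : V} {D : Finset V}
    (hx : x ∈ W) (hu : u ∈ W) (ha : a ∈ W) (hb : b ∈ W) (hc : c ∈ W) (hD : D ⊆ W)
    (hxu : x ≠ u) (hab : a ≠ b) (hac : a ≠ c) (hbc : b ≠ c)
    (axa : G.Adj x a) (axb : G.Adj x b) (axc : G.Adj x c)
    (aua : G.Adj u a) (aub : G.Adj u b) (auc : G.Adj u c)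
    (hDx : x ∉ D) (hDu : u ∉ D) (hDa : a ∉ D) (hDb : b ∉ D) (hDc : c ∉ D)
    (hconn : (G.induce (D : Set V)).Connected)
    (h1 : ∃ z ∈ D, G.Adj z a) (h2 : ∃ z ∈ D, G.Adj z b) (h3 : ∃ z ∈ D, G.Adj z c) :
    Model RK33 G (W : Set V) := by
  let f : Bool × Fin 3 → Set V := fun p =>
    if p.1 = true then ![{x}, {u}, (D : Set V)] p.2 else ![{a}, {b}, {c}] p.2
  have f1 : f (true, 0) = {x} := rfl
  have f2 : f (true, 1) = {u} := rfl
  have f3 : f (true, 2) = (D : Set V) := rfl
  have f4 : f (false, 0) = {a} := rfl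
  have f5 : f (false, 1) = {b} := rfl
  have f6 : f (false, 2) = {c} := rfl
  have hxa := axa.ne
  have hxb := axb.ne
  have hxc := axc.ne
  have hua := aua.ne
  have hub := aub.ne
  have huc := auc.ne
  refine ⟨f, ?_, ?_, ?_, ?_⟩
  · rintro ⟨i, j⟩
    cases i <;> fin_cases j
    · show ({a} : Set V) ⊆ W; simpa using ha
    · show ({b} : Set V) ⊆ W; simpa using hb
    · show ({c} : Set V) ⊆ W; simpa using hc
    · show ({x} : Set V) ⊆ W; simpa using hx
    · show ({u} : Set V) ⊆ W; simpa using hu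
    · show (D : Set V) ⊆ W; exact_mod_cast hD
  · rintro ⟨i, j⟩
    cases i <;> fin_cases j
    · exact connected_singleton a
    · exact connected_singleton b
    · exact connected_singleton c
    · exact connected_singleton x
    · exact connected_singleton u
    · exact hconn
  · have key : ∀ p q : Bool × Fin 3, p ≠ q → Disjoint (f p) (f q) := by
      rintro ⟨i, j⟩ ⟨i', j'⟩ hne
      cases i <;> cases i' <;> fin_cases j <;> fin_cases j' <;>
        first
          | exact absurd rfl hne
          | (simp [f, hxu, hab, hac, hbc, hxa, hxb, hxc, hua, hub, huc, hDx, hDu, hDa, hDb, hDc,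
              hxu.symm, hab.symm, hac.symm, hbc.symm, hxa.symm, hxb.symm, hxc.symm, hua.symm,
              hub.symm, huc.symm]; done)
    exact key
  · have sy : ∀ p q : Bool × Fin 3, (∃ a ∈ f p, ∃ b ∈ f q, G.Adj a b) →
        (∃ a ∈ f q, ∃ b ∈ f p, G.Adj a b) := by
      rintro p q ⟨a, ha, b, hb, hab⟩
      exact ⟨b, hb, a, ha, hab.symm⟩
    have key : ∀ j j' : Fin 3, ∃ a ∈ f (true, j), ∃ b ∈ f (false, j'), G.Adj a b := by
      intro j j'
      fin_cases j <;> fin_cases j'
      · exact ⟨x, rfl, a, rfl, axa⟩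
      · exact ⟨x, rfl, b, rfl, axb⟩
      · exact ⟨x, rfl, c, rfl, axc⟩
      · exact ⟨u, rfl, a, rfl, aua⟩
      · exact ⟨u, rfl, b, rfl, aub⟩
      · exact ⟨u, rfl, c, rfl, auc⟩
      · obtain ⟨z, hz, hz'⟩ := h1; exact ⟨z, hz, a, rfl, hz'⟩
      · obtain ⟨z, hz, hz'⟩ := h2; exact ⟨z, hz, b, rfl, hz'⟩
      · obtain ⟨z, hz, hz'⟩ := h3; exact ⟨z, hz, c, rfl, hz'⟩
    rintro ⟨i, j⟩ ⟨i', j'⟩ hne
    cases i <;> cases i'
    · exact absurd rfl hne
    · exact sy _ _ (key j' j)
    · exact key j j'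
    · exact absurd rfl hne

end Pool.Agent.MP1ed552
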