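import Pool.Agent.Work.MP_1ed552_co.Sparse2

set_option autoImplicit false

namespace Pool.Agent.MP1ed552

open Finset

variable {V : Type} [DecidableEq V] {G : SimpleGraph V} {W : Finset V}

lemma nonadj_le_two (ih : IH G W) (hg : Good G (W : Set V)) (h5 : 5 ≤ W.card) (hn : ¬ Bd G W)
    {x u : V} (hx : x ∈ W) (hu : u ∈ W) (hxu : x ≠ u) (nxu : ¬ G.Adj x u) :
    (nb G (nb G W x) u).card ≤ 2 := by
  by_contra hlt
  push Not at hlt
  obtain ⟨a, ha, b, hb, c, hc, hab, hac, hbc⟩ := Finset.two_lt_card.1 hlt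
  rw [mem_nb, mem_nb] at ha hb hc
  obtain ⟨⟨haW, axa⟩, aua⟩ := ha
  obtain ⟨⟨hbW, axb⟩, aub⟩ := hb
  obtain ⟨⟨hcW, axc⟩, auc⟩ := hc
  -- pairwise non-adjacent
  have nadj : ∀ p q : V, p ∈ W → q ∈ W → G.Adj x p → G.Adj x q → G.Adj u p → G.Adj u q →
      ¬ G.Adj p q := by
    intro p q hp hq axp axq aup auq hpq
    have h1 := edge_le_one ih hg h5 hn hq hp hpq.symm
    have h2 : ({x, u} : Finset V) ⊆ nb G (nb G W p) q := by
      intro z hz
      rw [mem_insert, mem_singleton] at hz
      rw [mem_nb, mem_nb]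
      rcases hz with rfl | rfl
      · exact ⟨⟨hx, axp.symm⟩, axq.symm⟩
      · exact ⟨⟨hu, aup.symm⟩, auq.symm⟩
    have h3 := card_le_card h2
    rw [card_pair hxu] at h3
    omega
  have nab := nadj a b haW hbW axa axb aua aub
  have nac := nadj a c haW hcW axa axc aua auc
  have nbc := nadj b c hbW hcW axb axc aub auc
  -- a has a further neighbour
  set R := W \ {x, u, a, b, c} with hR
  have hdeg := deg_ge_three ih hg h5 hn haW
  obtain ⟨d, hdR⟩ : R.Nonempty := by
    by_contra hne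
    rw [not_nonempty_iff_eq_empty, sdiff_eq_empty_iff_subset] at hne
    have : nb G W a ⊆ {x, u} := by
      intro z hz
      rw [mem_nb] at hz
      have hz1 := hne hz.1
      simp only [mem_insert, mem_singleton] at hz1 ⊢
      rcases hz1 with h | h | h | h | h
      · exact Or.inl h
      · exact Or.inr h
      · exact absurd hz.2 (h ▸ (G.loopless.irrefl a))
      · exact absurd hz.2 (h ▸ nab)
      · exact absurd hz.2 (h ▸ nac)
    have h3 := card_le_card this
    rw [card_pair hxu] at h3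
    omega
  obtain ⟨D, hDR, hdD, hconn, hcl⟩ := exists_component (G := G) R hdR
  have hDW : D ⊆ W := hDR.trans sdiff_subset
  have hnot : ∀ z, z ∈ ({x, u, a, b, c} : Finset V) → z ∉ D := by
    intro z hz hzD
    have := hDR hzD
    rw [hR, mem_sdiff] at this
    exact this.2 hz
  have hDx := hnot x (by simp)
  have hDu := hnot u (by simp)
  have hDa := hnot a (by simp)
  have hDb := hnot b (by simp)
  have hDc := hnot c (by simp)
  have hcl' : ∀ z ∈ D, ∀ w ∈ W, G.Adj z w → w ∈ D ∨ w = x ∨ w = u ∨ w = a ∨ w = b ∨ w = c := by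
    intro z hz w hw hzw
    by_cases hwR : w ∈ R
    · exact Or.inl (hcl z hz w hwR hzw)
    · right
      rw [hR, mem_sdiff] at hwR
      push Not at hwR
      have := hwR hw
      simpa only [mem_insert, mem_singleton] using this
  have hne : D.Nonempty := ⟨d, hdD⟩
  by_cases h1 : ∃ z ∈ D, G.Adj z a
  · by_cases h2 : ∃ z ∈ D, G.Adj z b
    · by_cases h3 : ∃ z ∈ D, G.Adj z c
      · exact hg.2 (model_K33 hx hu haW hbW hcW hDW hxu hab hac hbc axa axb axc aua aub auc
          hDx hDu hDa hDb hDc hconn h1 h2 h3)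
      · refine sep_case ih hg hn hx hu hcW haW hbW hxu hac.symm hbc.symm hab nxu axc axa axb
          auc aua aub nab hDW hne hDx hDu hDc hDa hDb ?_
        intro z hz w hw hzw
        rcases hcl' z hz w hw hzw with h | h | h | h | h | h
        · exact Or.inl h
        · exact Or.inr (Or.inl h)
        · exact Or.inr (Or.inr (Or.inl h))
        · exact Or.inr (Or.inr (Or.inr (Or.inl h)))
        · exact Or.inr (Or.inr (Or.inr (Or.inr h)))
        · exact absurd ⟨z, hz, h ▸ hzw⟩ h3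
    · refine sep_case ih hg hn hx hu hbW haW hcW hxu hab.symm hbc hac nxu axb axa axc
        aub aua auc nac hDW hne hDx hDu hDb hDa hDc ?_
      intro z hz w hw hzw
      rcases hcl' z hz w hw hzw with h | h | h | h | h | h
      · exact Or.inl h
      · exact Or.inr (Or.inl h)
      · exact Or.inr (Or.inr (Or.inl h))
      · exact Or.inr (Or.inr (Or.inr (Or.inl h)))
      · exact absurd ⟨z, hz, h ▸ hzw⟩ h2
      · exact Or.inr (Or.inr (Or.inr (Or.inr h)))
  · refine sep_case ih hg hn hx hu haW hbW hcW hxu hab hac hbc nxu axa axb axc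
      aua aub auc nbc hDW hne hDx hDu hDa hDb hDc ?_
    intro z hz w hw hzw
    rcases hcl' z hz w hw hzw with h | h | h | h | h | h
    · exact Or.inl h
    · exact Or.inr (Or.inl h)
    · exact Or.inr (Or.inr (Or.inl h))
    · exact absurd ⟨z, hz, h ▸ hzw⟩ h1
    · exact Or.inr (Or.inr (Or.inr (Or.inl h)))
    · exact Or.inr (Or.inr (Or.inr (Or.inr h)))

/-- In a minimal counterexample, for adjacent `x y` and `u` adjacent to `y` but not to `x`, `u` has
at most one neighbour in `N(x) \ N(y)`. -/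
lemma cross_le_one (ih : IH G W) (hg : Good G (W : Set V)) (h5 : 5 ≤ W.card) (hn : ¬ Bd G W)
    {x y u : V} (hx : x ∈ W) (hy : y ∈ W) (hxy : G.Adj x y)
    (hu : u ∈ nb G ((W.erase y).erase x) y \ nb G ((W.erase y).erase x) x) :
    (nb G (nb G ((W.erase y).erase x) x \ nb G ((W.erase y).erase x) y) u).card ≤ 1 := by
  rw [mem_sdiff, mem_nb, mem_nb] at hu
  obtain ⟨⟨hu1, ayu⟩, hu2⟩ := hu
  have nxu : ¬ G.Adj x u := fun h => hu2 ⟨hu1, h⟩
  rw [mem_erase, mem_erase] at hu1
  have h2 := nonadj_le_two ih hg h5 hn hx hu1.2.2 (Ne.symm hu1.1) nxu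
  have hyc : y ∈ nb G (nb G W x) u := by
    rw [mem_nb, mem_nb]; exact ⟨⟨hy, hxy⟩, ayu.symm⟩
  have hsub : nb G (nb G ((W.erase y).erase x) x \ nb G ((W.erase y).erase x) y) u ⊆
      (nb G (nb G W x) u).erase y := by
    intro z hz
    simp only [mem_nb, mem_sdiff, mem_erase] at hz ⊢
    exact ⟨hz.1.1.1.2.1, ⟨hz.1.1.1.2.2, hz.1.1.2⟩, hz.2⟩
  have h3 := card_le_card hsub
  rw [card_erase_of_mem hyc] at h3
  omega

lemma card_nb_erase {x y : V} (hx : x ∈ W) (hxy : G.Adj x y) :
    (nb G W y).card = (nb G ((W.erase y).erase x) y).card + 1 := by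
  have : nb G W y = insert x (nb G ((W.erase y).erase x) y) := by
    ext z; simp only [mem_nb, mem_erase, mem_insert]
    constructor
    · rintro ⟨h1, h2⟩
      by_cases hz : z = x
      · exact Or.inl hz
      · exact Or.inr ⟨⟨hz, h2.ne', h1⟩, h2⟩
    · rintro (rfl | ⟨⟨h1, h2, h3⟩, h4⟩)
      · exact ⟨hx, hxy.symm⟩
      · exact ⟨h3, h4⟩
  rw [this, card_insert_of_notMem]
  intro h
  exact (notMem_erase x _) (nb_subset h)

/-- no vertex of degree three -/
lemma deg_ge_four (ih : IH G W) (hg : Good G (W : Set V)) (h5 : 5 ≤ W.card) (hn : ¬ Bd G W)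
    {y : V} (hy : y ∈ W) : 4 ≤ (nb G W y).card := by
  have h3 := deg_ge_three ih hg h5 hn hy
  obtain ⟨x, hxn⟩ : (nb G W y).Nonempty := by rw [← card_pos]; omega
  rw [mem_nb] at hxn
  obtain ⟨hx, hyx⟩ := hxn
  have h1 := contract_ge ih hg h5 hn hx hy hyx.symm
    (nb G ((W.erase y).erase x) y \ nb G ((W.erase y).erase x) x).card
    (by
      calc _ ≤ ∑ u ∈ nb G ((W.erase y).erase x) y \ nb G ((W.erase y).erase x) x, 1 :=
            sum_le_sum (fun u hu => cross_le_one ih hg h5 hn hx hy hyx.symm hu)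
        _ = _ := by simp)
  have h2 := card_nb_erase hx hyx.symm
  have h4 := card_sdiff_add_card_inter (nb G ((W.erase y).erase x) y) (nb G ((W.erase y).erase x) x)
  rw [inter_comm] at h4
  omega

/-- for a vertex of degree four, nonadjacent neighbours have another common neighbour -/
lemma deg_four_common (ih : IH G W) (hg : Good G (W : Set V)) (h5 : 5 ≤ W.card) (hn : ¬ Bd G W)
    {y : V} (hy : y ∈ W) (h4 : (nb G W y).card = 4) {x u : V} (hx : x ∈ nb G W y)
    (hu : u ∈ nb G W y) (hxu : x ≠ u) (nxu : ¬ G.Adj x u) :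
    ∃ v ∈ W, v ≠ y ∧ ¬ G.Adj y v ∧ G.Adj x v ∧ G.Adj u v := by
  rw [mem_nb] at hx hu
  obtain ⟨hx, hyx⟩ := hx
  obtain ⟨hu, hyu⟩ := hu
  by_contra hno
  push Not at hno
  have huin : u ∈ nb G ((W.erase y).erase x) y \ nb G ((W.erase y).erase x) x := by
    simp only [mem_sdiff, mem_nb, mem_erase]
    exact ⟨⟨⟨hxu.symm, hyu.ne', hu⟩, hyu⟩, fun h => nxu h.2⟩
  have hu0 : (nb G (nb G ((W.erase y).erase x) x \ nb G ((W.erase y).erase x) y) u).card = 0 := by
    rw [card_eq_zero, eq_empty_iff_forall_notMem]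
    intro z hz
    simp only [mem_nb, mem_sdiff, mem_erase] at hz
    refine hno z hz.1.1.1.2.2 hz.1.1.1.2.1 ?_ hz.1.1.2 hz.2
    intro h
    exact hz.1.2 ⟨hz.1.1.1, h⟩
  have h1 := contract_ge ih hg h5 hn hx hy hyx.symm
    ((nb G ((W.erase y).erase x) y \ nb G ((W.erase y).erase x) x).erase u).card
    (by
      rw [← add_sum_erase _ _ huin, hu0, zero_add]
      calc _ ≤ ∑ u ∈ (nb G ((W.erase y).erase x) y \ nb G ((W.erase y).erase x) x).erase u, 1 :=
            sum_le_sum (fun v hv => cross_le_one ih hg h5 hn hx hy hyx.symm (mem_of_mem_erase hv))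
        _ = _ := by simp)
  rw [card_erase_of_mem huin] at h1
  have h2 := card_nb_erase hx hyx.symm
  have h6 := card_sdiff_add_card_inter (nb G ((W.erase y).erase x) y) (nb G ((W.erase y).erase x) x)
  rw [inter_comm] at h6
  have h7 : 0 < (nb G ((W.erase y).erase x) y \ nb G ((W.erase y).erase x) x).card :=
    card_pos.2 ⟨u, huin⟩
  omega

end Pool.Agent.MP1ed552
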