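import Pool.Agent.Work.MP_1ed552_co.Sparse3

set_option autoImplicit false

namespace Pool.Agent.MP1ed552

open Finset

variable {V : Type} [DecidableEq V] {G : SimpleGraph V} {W : Finset V}

/-- A vertex of degree four gives a `K_5` minor. -/
lemma deg_ne_four (ih : IH G W) (hg : Good G (W : Set V)) (h5 : 5 ≤ W.card) (hn : ¬ Bd G W)
    {y : V} (hy : y ∈ W) : (nb G W y).card ≠ 4 := by
  intro h4
  classical
  -- enumerate the neighbours
  let e := (nb G W y).equivFin
  have hcast : (nb G W y).card = 4 := h4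
  let f : Fin 4 → V := fun i => (e.symm (Fin.cast hcast.symm i)).1
  have hfmem : ∀ i, f i ∈ nb G W y := fun i => (e.symm (Fin.cast hcast.symm i)).2
  have hfinj : ∀ i j, f i = f j → i = j := by
    intro i j hij
    have h1 := e.symm.injective (Subtype.ext hij)
    exact Fin.ext (by simpa [Fin.ext_iff] using h1)
  have hfW : ∀ i, f i ∈ W := fun i => (mem_nb.1 (hfmem i)).1
  have hfy : ∀ i, G.Adj y (f i) := fun i => (mem_nb.1 (hfmem i)).2
  -- the extra common neighbours
  have hex : ∀ i j, ∃ v, i ≠ j → ¬ G.Adj (f i) (f j) →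
      v ∈ W ∧ v ≠ y ∧ ¬ G.Adj y v ∧ G.Adj (f i) v ∧ G.Adj (f j) v := by
    intro i j
    by_cases hij : i ≠ j ∧ ¬ G.Adj (f i) (f j)
    · obtain ⟨v, h1, h2, h3, h4', h5'⟩ := deg_four_common ih hg h5 hn hy h4 (hfmem i) (hfmem j)
        (fun h => hij.1 (hfinj _ _ h)) hij.2
      exact ⟨v, fun _ _ => ⟨h1, h2, h3, h4', h5'⟩⟩
    · refine ⟨y, fun h1 h2 => absurd ⟨h1, h2⟩ hij⟩
  choose v hv using hex
  -- a vertex adjacent to three neighbours
  have three : ∀ z, z ∈ W → z ≠ y → ¬ G.Adj y z → ∀ i j k : Fin 4, i < j → j < k →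
      G.Adj (f i) z → G.Adj (f j) z → G.Adj (f k) z → False := by
    intro z hz hzy hyz i j k hij hjk hi hj hk
    have h1 := nonadj_le_two ih hg h5 hn hy hz (Ne.symm hzy) hyz
    have h2 : ({f i, f j, f k} : Finset V) ⊆ nb G (nb G W y) z := by
      intro w hw
      simp only [mem_insert, mem_singleton] at hw
      rw [mem_nb]
      rcases hw with rfl | rfl | rfl
      · exact ⟨hfmem i, hi.symm⟩
      · exact ⟨hfmem j, hj.symm⟩
      · exact ⟨hfmem k, hk.symm⟩
    have h3 : ({f i, f j, f k} : Finset V).card = 3 := by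
      rw [card_eq_three]
      refine ⟨f i, f j, f k, ?_, ?_, ?_, rfl⟩
      · intro h; exact hij.ne (hfinj _ _ h)
      · intro h; exact (hij.trans hjk).ne (hfinj _ _ h)
      · intro h; exact hjk.ne (hfinj _ _ h)
    have h4' := card_le_card h2
    omega
  -- branch sets
  let B : Fin 4 → Set V := fun i => {z | z = f i ∨ ∃ j, i < j ∧ ¬ G.Adj (f i) (f j) ∧ z = v i j}
  have hfB : ∀ i, f i ∈ B i := fun i => Or.inl rfl
  have hBW : ∀ i, B i ⊆ (W : Set V) := by
    rintro i z (rfl | ⟨j, hij, hn', rfl⟩)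
    · exact hfW i
    · exact (hv i j hij.ne hn').1
  have hBconn : ∀ i, (G.induce (B i)).Connected := by
    intro i
    refine connected_star (hfB i) ?_
    rintro z (rfl | ⟨j, hij, hn', rfl⟩) hz
    · exact absurd rfl hz
    · exact (hv i j hij.ne hn').2.2.2.1
  have hBy : ∀ i, y ∉ B i := by
    rintro i (h | ⟨j, hij, hn', h⟩)
    · exact (hfy i).ne h
    · exact (hv i j hij.ne hn').2.1 h.symm
  have hBlt : ∀ i j, i < j → Disjoint (B i) (B j) := by
    intro i j hij
    rw [Set.disjoint_left]
    rintro z (rfl | ⟨k, hik, hn', rfl⟩) (h | ⟨l, hjl, hn'', h⟩)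
    · exact hij.ne (hfinj _ _ h)
    · have h1 := (hv j l hjl.ne hn'').2.2.1
      rw [← h] at h1
      exact h1 (hfy i)
    · have h1 := (hv i k hik.ne hn').2.2.1
      rw [h] at h1
      exact h1 (hfy j)
    · obtain ⟨a1, a2, a3, a4, a5⟩ := hv i k hik.ne hn'
      obtain ⟨b1, b2, b3, b4, b5⟩ := hv j l hjl.ne hn''
      rw [← h] at b4 b5
      exact three _ a1 a2 a3 i j l hij hjl a4 b4 b5
  have hBdis : ∀ i j, i ≠ j → Disjoint (B i) (B j) := by
    intro i j hij
    rcases lt_or_gt_of_ne hij with h | h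
    · exact hBlt i j h
    · exact (hBlt j i h).symm
  have hBadj : ∀ i j, i < j → ∃ a ∈ B i, ∃ b ∈ B j, G.Adj a b := by
    intro i j hij
    by_cases hadj : G.Adj (f i) (f j)
    · exact ⟨f i, hfB i, f j, hfB j, hadj⟩
    · exact ⟨v i j, Or.inr ⟨j, hij, hadj, rfl⟩, f j, hfB j, (hv i j hij.ne hadj).2.2.2.2.symm⟩
  have hBadj' : ∀ i j, i ≠ j → ∃ a ∈ B i, ∃ b ∈ B j, G.Adj a b := by
    intro i j hij
    rcases lt_or_gt_of_ne hij with h | h
    · exact hBadj i j h
    · obtain ⟨a, ha, b, hb, hab⟩ := hBadj j i h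
      exact ⟨b, hb, a, ha, hab.symm⟩
  apply hg.1
  refine ⟨Fin.cases {y} B, ?_, ?_, ?_, ?_⟩
  · intro i
    refine Fin.cases ?_ ?_ i
    · simpa using hy
    · exact hBW
  · intro i
    refine Fin.cases ?_ ?_ i
    · exact connected_singleton y
    · exact hBconn
  · intro i j
    refine Fin.cases ?_ ?_ i
    · refine Fin.cases ?_ ?_ j
      · intro h; exact absurd rfl h
      · intro j _
        rw [Set.disjoint_left]
        intro z hz
        have : z = y := hz
        subst this
        exact hBy j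
    · intro i
      refine Fin.cases ?_ ?_ j
      · intro _
        rw [Set.disjoint_left]
        intro z hz hz'
        have : z = y := hz'
        subst this
        exact hBy i hz
      · intro j hij
        exact hBdis i j (fun h => hij (by rw [h]))
  · intro i j
    refine Fin.cases ?_ ?_ i
    · refine Fin.cases ?_ ?_ j
      · intro h; exact absurd rfl h
      · intro j _
        exact ⟨y, rfl, f j, hfB j, hfy j⟩
    · intro i
      refine Fin.cases ?_ ?_ j
      · intro _
        exact ⟨f i, hfB i, y, rfl, (hfy i).symm⟩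
      · intro j hij
        exact hBadj' i j (fun h => hij (by rw [h]))

/-- The bound. -/
theorem bound (N : ℕ) : ∀ (G : SimpleGraph V) (W : Finset V), W.card + E G W ≤ N →
    4 ≤ W.card → Good G (W : Set V) → Bd G W := by
  induction N with
  | zero => intro G W h1 h2; omega
  | succ N ihN =>
    intro G W hN h4 hg
    by_cases hc4 : W.card = 4
    · exact base_four hc4
    have h5 : 5 ≤ W.card := by omega
    have ih : IH G W := by
      intro G' W' h1 h2 h3
      exact ihN G' W' (by omega) h2 h3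
    by_contra hn
    have hdeg : ∀ y ∈ W, 5 ≤ (nb G W y).card := by
      intro y hy
      have h1 := deg_ge_four ih hg h5 hn hy
      have h2 := deg_ne_four ih hg h5 hn hy
      omega
    have hE : 5 * W.card ≤ E G W := by
      unfold E
      calc 5 * W.card = ∑ a ∈ W, 5 := by simp [mul_comm]
        _ ≤ _ := sum_le_sum hdeg
    have hT : T G W ≤ E G W := by
      unfold T
      conv_rhs => unfold E
      refine sum_le_sum (fun a ha => ?_)
      unfold E
      calc ∑ b ∈ nb G W a, (nb G (nb G W a) b).card ≤ ∑ b ∈ nb G W a, 1 := by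
            refine sum_le_sum (fun b hb => ?_)
            rw [mem_nb] at hb
            exact edge_le_one ih hg h5 hn hb.1 ha hb.2.symm
        _ = _ := by simp
    obtain ⟨y, hy⟩ : W.Nonempty := by rw [← card_pos]; omega
    obtain ⟨x, hx⟩ : (nb G W y).Nonempty := by rw [← card_pos]; have := hdeg y hy; omega
    rw [mem_nb] at hx
    obtain ⟨e1, t1⟩ := delete_counts hx.1 hy hx.2.symm
    have h1 : Bd (G.deleteEdges {s(x, y)}) W := by
      apply ih
      · omega
      · omega
      · exact hg.mono_graph (SimpleGraph.deleteEdges_le _)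
    unfold Bd at *
    omega

end Pool.Agent.MP1ed552
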